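import Pool.Agent.H70.LS.GG

/-!
# From the symmetric and exterior powers of the standard representation to all products
-/

set_option autoImplicit false

namespace Pool.Agent.H70.LS

open Pool.Agent.K7.H58 Pool.Agent.K7.H58.EP Pool.Agent.K7.H58.VR
open Finset.HasAntidiagonal (antidiagonal mem_antidiagonal)

variable {n m : ℕ} {A : UnitarySystem}

theorem gl1_tame {α : GLData n} (h : α ∈ A.gl n) (i : Fin n) : gl1 α i ∈ Tm := (VR.growth_gl h i).1.tame

theorem gl2_tame {α : GLData n} (h : α ∈ A.gl n) (i : Fin n) : gl2 α i ∈ Tm := (VR.growth_gl h i).2.tame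

theorem stdF_tame {b : GSpData m} (h : b ∈ A.gsp m) (a : (Fin m ⊕ Fin m) ⊕ Unit) : stdF b a ∈ Tm := by
  rcases a with (i | i) | u
  · rw [stdF_inl]; exact (VR.growth_gsp h i).1.tame
  · rw [stdF_inr]; exact (VR.growth_gsp h i).2.tame
  · rw [stdF_unit]; exact Tm.one_mem

variable (A)

/-- the products of `M` with the `D`-th power of the standard representation are good -/
def HG (w : ℕ → ℤ) (M : Fam) (D : ℕ) : Prop :=
  ∀ (m : ℕ) (b : GSpData m), b ∈ A.gsp m → M * gg w (stdF b) D ∈ Good

/-- they continue to strips -/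
def HS (w : ℕ → ℤ) (M : Fam) (D : ℕ) : Prop :=
  ∀ m : ℕ, ∃ u v : ℝ, u < v ∧ ∀ b ∈ A.gsp m, M * gg w (stdF b) D ∈ GU (strip u v)

variable {A}

theorem HG.hs {w : ℕ → ℤ} {M : Fam} {D : ℕ} (h : HG A w M D) : HS A w M D := fun m =>
  ⟨0, 1, zero_lt_one, fun b hb => good_le_GU _ (h m b hb)⟩

/-- the relations obtained from the induced representations -/
theorem rel {w : ℕ → ℤ} {M : Fam} (hM : M ∈ Tm) {α : GLData n} (hα : α ∈ A.gl n) {b : GSpData m}
    (hb : b ∈ A.gsp m) {D : ℕ} {u v : ℝ} (huv : u < v)
    (h : ∀ b' ∈ A.gsp (n + m), M * gg w (stdF b') D ∈ GU (strip u v)) {k : ℤ} (hk : k ≠ 0) :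
    ∑ i ∈ (antidiagonal D).sigma (fun p => antidiagonal p.1) with (i.2.1 : ℤ) - i.2.2 = k,
      M * (gg w (gl1 α) i.2.1 * gg w (gl2 α) i.2.2 * gg w (stdF b) i.1.2) ∈ Good := by
  refine (strip_isolate' ((antidiagonal D).sigma (fun p => antidiagonal p.1)) (fun i => (i.2.1 : ℤ) - i.2.2)
    (fun i => M * (gg w (gl1 α) i.2.1 * gg w (gl2 α) i.2.2 * gg w (stdF b) i.1.2)) ?_ huv ?_).1 k hk
  · intro i _
    exact Tm.mul_mem hM (Tm.mul_mem (Tm.mul_mem (gg_mem w (gl1_tame hα) _) (gg_mem w (gl2_tame hα) _))
      (gg_mem w (stdF_tame hb) _))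
  · intro t
    have h1 := h _ (VR.ind_mem hα hb t)
    have h2 := coeff_ind w α b (t * Complex.I) 1 D
    rw [one_mul, one_mul] at h2
    have h3 : gg w (stdF (ind α b (t * Complex.I))) D = _ := h2
    rw [h3, Finset.mul_sum] at h1
    refine (congrArg (· ∈ GU (strip u v)) ?_).mp h1
    refine Finset.sum_congr rfl fun i _ => ?_
    change M * (gg w (gl1 α) i.2.1 * gg w (gl2 α) i.2.2 * gg w (stdF b) i.1.2 * _) = _
    ring

/-- **The descent.** -/
theorem descent {w : ℕ → ℤ} (hw : w 0 = 1) (D : ℕ) : ∀ M ∈ Tm, HS A w M D →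
    ∀ (n : ℕ) (α : GLData n), α ∈ A.gl n → ∀ a : ℕ, 1 ≤ a → a ≤ D →
      HG A w (M * gg w (gl1 α) a) (D - a) ∧ HG A w (M * gg w (gl2 α) a) (D - a) := by
  induction D using Nat.strong_induction_on with
  | _ D ih =>
    intro M hM hS n α hα
    -- descending induction on `a`
    have key : ∀ e a : ℕ, 1 ≤ a → a + e = D →
        HG A w (M * gg w (gl1 α) a) (D - a) ∧ HG A w (M * gg w (gl2 α) a) (D - a) := by
      intro e
      induction e using Nat.strong_induction_on with
      | _ e ihe =>
        intro a ha hae
        have hprev : ∀ i : ℕ, 1 ≤ i → a + 2 * i ≤ D →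
            HG A w (M * gg w (gl1 α) (a + i) * gg w (gl2 α) i) (D - (a + 2 * i)) ∧
              HG A w (M * gg w (gl2 α) (a + i) * gg w (gl1 α) i) (D - (a + 2 * i)) := by
          intro i hi hai
          have h1 := ihe (e - i) (by omega) (a + i) (by omega) (by omega)
          have h2 := ih (D - (a + i)) (by omega) (M * gg w (gl1 α) (a + i))
            (Tm.mul_mem hM (gg_mem w (gl1_tame hα) _)) h1.1.hs n α hα i hi (by omega)
          have h3 := ih (D - (a + i)) (by omega) (M * gg w (gl2 α) (a + i))
            (Tm.mul_mem hM (gg_mem w (gl2_tame hα) _)) h1.2.hs n α hα i hi (by omega)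
          have e1 : D - (a + i) - i = D - (a + 2 * i) := by omega
          rw [e1] at h2 h3
          exact ⟨h2.2, h3.1⟩
        have haD : a ≤ D := by omega
        constructor
        · intro m b hb
          obtain ⟨u, v, huv, h⟩ := hS (n + m)
          have h1 := rel hM hα hb huv h (k := (a : ℤ)) (by omega)
          have hmem : (⟨(a, D - a), (a, 0)⟩ : (_ : ℕ × ℕ) × ℕ × ℕ) ∈
              ((antidiagonal D).sigma (fun p => antidiagonal p.1)).filter
                (fun i => (i.2.1 : ℤ) - i.2.2 = (a : ℤ)) := by
            rw [Finset.mem_filter, Finset.mem_sigma, mem_antidiagonal, mem_antidiagonal]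
            refine ⟨⟨by dsimp only; omega, by dsimp only; omega⟩, by dsimp only; simp⟩
          rw [← Finset.add_sum_erase _ _ hmem] at h1
          have h2 := Good.sub_mem h1 (Good.sum_mem (t := (((antidiagonal D).sigma
            (fun p => antidiagonal p.1)).filter (fun i => (i.2.1 : ℤ) - i.2.2 = (a : ℤ))).erase
              ⟨(a, D - a), (a, 0)⟩) (f := fun i => M * (gg w (gl1 α) i.2.1 * gg w (gl2 α) i.2.2 *
                gg w (stdF b) i.1.2)) ?_)
          · rw [add_sub_cancel_right] at h2
            dsimp only at h2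
            rw [gg_zero hw, mul_one, ← mul_assoc] at h2
            exact h2
          · rintro ⟨⟨p, q⟩, ⟨r, s⟩⟩ hi
            rw [Finset.mem_erase, Finset.mem_filter, Finset.mem_sigma, mem_antidiagonal, mem_antidiagonal] at hi
            obtain ⟨hne, ⟨hi1, hi2⟩, hi3⟩ := hi
            dsimp only at hi1 hi2 hi3 ⊢
            have hs : 1 ≤ s := by
              by_contra hcon
              have hs0 : s = 0 := by omega
              subst hs0
              have hr : r = a := by omega
              subst hr
              have hp : p = r := by omega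
              subst hp
              have hq : q = D - p := by omega
              subst hq
              exact hne rfl
            have hr : r = a + s := by omega
            subst hr
            have hq : q = D - (a + 2 * s) := by omega
            subst hq
            have h4 := (hprev s hs (by omega)).1 m b hb
            rwa [mul_assoc, mul_assoc, ← mul_assoc (gg w (gl1 α) (a + s))] at h4
        · intro m b hb
          obtain ⟨u, v, huv, h⟩ := hS (n + m)
          have h1 := rel hM hα hb huv h (k := -(a : ℤ)) (by omega)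
          have hmem : (⟨(a, D - a), (0, a)⟩ : (_ : ℕ × ℕ) × ℕ × ℕ) ∈
              ((antidiagonal D).sigma (fun p => antidiagonal p.1)).filter
                (fun i => (i.2.1 : ℤ) - i.2.2 = -(a : ℤ)) := by
            rw [Finset.mem_filter, Finset.mem_sigma, mem_antidiagonal, mem_antidiagonal]
            refine ⟨⟨by dsimp only; omega, by dsimp only; omega⟩, by dsimp only; simp⟩
          rw [← Finset.add_sum_erase _ _ hmem] at h1
          have h2 := Good.sub_mem h1 (Good.sum_mem (t := (((antidiagonal D).sigma
            (fun p => antidiagonal p.1)).filter (fun i => (i.2.1 : ℤ) - i.2.2 = -(a : ℤ))).erase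
              ⟨(a, D - a), (0, a)⟩) (f := fun i => M * (gg w (gl1 α) i.2.1 * gg w (gl2 α) i.2.2 *
                gg w (stdF b) i.1.2)) ?_)
          · rw [add_sub_cancel_right] at h2
            dsimp only at h2
            rw [gg_zero hw, one_mul, ← mul_assoc] at h2
            exact h2
          · rintro ⟨⟨p, q⟩, ⟨r, s⟩⟩ hi
            rw [Finset.mem_erase, Finset.mem_filter, Finset.mem_sigma, mem_antidiagonal, mem_antidiagonal] at hi
            obtain ⟨hne, ⟨hi1, hi2⟩, hi3⟩ := hi
            dsimp only at hi1 hi2 hi3 ⊢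
            have hs : 1 ≤ r := by
              by_contra hcon
              have hs0 : r = 0 := by omega
              subst hs0
              have hr : s = a := by omega
              subst hr
              have hp : p = s := by omega
              subst hp
              have hq : q = D - p := by omega
              subst hq
              exact hne rfl
            have hr : s = a + r := by omega
            subst hr
            have hq : q = D - (a + 2 * r) := by omega
            subst hq
            have h4 := (hprev r hs (by omega)).2 m b hb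
            have h5 : M * (gg w (gl1 α) r * gg w (gl2 α) (a + r) * gg w (stdF b) (D - (a + 2 * r))) =
                M * gg w (gl2 α) (a + r) * gg w (gl1 α) r * gg w (stdF b) (D - (a + 2 * r)) := by ring
            rw [h5]
            exact h4
    intro a ha haD
    exact key (D - a) a ha (by omega)

variable (A)

/-- the monomials of degree `d` in the `gg w σ j`, `σ` in the system -/
inductive MG (w : ℕ → ℤ) : ℕ → Fam → Prop
  | one : MG w 0 1
  | mul {d : ℕ} {x : Fam} {n : ℕ} {α : GLData n} (hα : α ∈ A.gl n) (j : ℕ) (hx : MG w d x) :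
      MG w (d + j) (x * gg w (gl1 α) j)

variable {A}

theorem MG.tame {w : ℕ → ℤ} {d : ℕ} {x : Fam} (h : MG A w d x) : x ∈ Tm := by
  induction h with
  | one => exact Tm.one_mem
  | mul hα j _ ih => exact Tm.mul_mem ih (gg_mem w (gl1_tame hα) _)

theorem MG.hg {w : ℕ → ℤ} (hw : w 0 = 1) {J : ℕ} (h : HS A w 1 J) {d : ℕ} {x : Fam} (hx : MG A w d x) :
    d ≤ J → (d = 0 ∧ x = 1) ∨ HG A w x (J - d) := by
  induction hx with
  | one => exact fun _ => Or.inl ⟨rfl, rfl⟩
  | @mul d x n α hα j hx ih =>
    intro hd
    rcases Nat.eq_zero_or_pos j with hj | hj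
    · subst hj
      rw [gg_zero hw, mul_one, add_zero]
      exact ih (by omega)
    · right
      have h1 : HS A w x (J - d) := by
        rcases ih (by omega) with ⟨h1, h2⟩ | h1
        · subst h1 h2
          exact h
        · exact h1.hs
      have h2 := (descent hw (J - d) x hx.tame h1 n α hα j hj (by omega)).1
      have e1 : J - d - j = J - (d + j) := by omega
      rwa [e1] at h2

theorem gg_triv {w : ℕ → ℤ} (j : ℕ) : gg w (gl1 (fun _ _ => 1 : GLData 1)) j = (w j : Fam) := by
  unfold gg
  rw [gs_unique (κ := Fin 1), coeff_fac]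
  have h1 : gl1 (fun _ _ => 1 : GLData 1) default = 1 := br_one
  rw [h1, one_pow, mul_one]

theorem gg_triv2 {w : ℕ → ℤ} (j : ℕ) : gg w (gl2 (fun _ _ => 1 : GLData 1)) j = (w j : Fam) := by
  unfold gg
  rw [gs_unique (κ := Fin 1), coeff_fac]
  have h1 : gl2 (fun _ _ => 1 : GLData 1) default = 1 := by
    change br (fun _ => (1 : ℂˣ)⁻¹) = 1
    rw [inv_one]
    exact br_one
  rw [h1, one_pow, mul_one]

/-- **all monomials of degree at most `J` are good** -/
theorem MG.good {w : ℕ → ℤ} (hw : w 0 = 1) (hw1 : w 1 = 1) {J : ℕ} (hJ : 1 ≤ J) (h : HS A w 1 J) {d : ℕ} {x : Fam}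
    (hx : MG A w d x) (hd : d ≤ J) : x ∈ Good := by
  have h1 : ∀ k : ℕ, MG A w (d + k) x := by
    intro k
    induction k with
    | zero => exact hx
    | succ k ih =>
      have h2 := MG.mul A.trivial 1 ih
      rw [gg_triv, hw1, Int.cast_one, mul_one] at h2
      exact h2
  have h2 := h1 (J - d)
  have e1 : d + (J - d) = J := by omega
  rw [e1] at h2
  rcases h2.hg hw h le_rfl with ⟨h3, _⟩ | h3
  · omega
  · have hb : (fun _ => ((1 : ℂˣ), Fin.elim0) : GSpData 0) ∈ A.gsp 0 := (A.gsp_zero _).2 A.trivial
    have h4 := h3 0 _ hb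
    rwa [Nat.sub_self, gg_zero hw, mul_one] at h4

end Pool.Agent.H70.LS
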