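import Pool.Agent.H70.LS.GU

/-!
# Crossing the boundary at one height

The arguments of `Pool.Agent.K7.H58.VR.no_accumulation` and `Pool.Agent.K7.H58.VR.cross`, with the ratios meromorphic
in the open half-plane and at one point of its boundary only.
-/

set_option autoImplicit false

namespace Pool.Agent.H70.LS

open Complex Filter Topology Set Metric
open Pool.Agent.K7.H58.EP Pool.Agent.K7.H58.VR
open scoped Nat

theorem no_accumulation' {c : ℝ} {F : ℂ → ℂ} (hF : MeromorphicOn F {s | c < s.re})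
    (htop : ∀ z : ℂ, c < z.re → meromorphicOrderAt F z ≠ ⊤) {h : ℝ → ℂ → ℂ}
    (hh : ∀ t, MeromorphicOn (h t) {s | c < s.re}) (hh0 : ∀ t, MeromorphicAt (h t) (c : ℂ))
    (hrel : ∀ t : ℝ, ∀ z : ℂ, c < z.re → F =ᶠ[𝓝[≠] z] fun s => h t s * F (s + t * I)) :
    ∀ᶠ z in 𝓝[≠] (c : ℂ), c < z.re → meromorphicOrderAt F z = 0 := by
  by_contra hcon
  rw [Filter.not_eventually] at hcon
  set P : Set ℂ := {z : ℂ | c < z.re ∧ meromorphicOrderAt F z ≠ 0} with hP
  have hPc : P.Countable := countable_order hF htop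
  have hQc : ((fun x : ℂ × ℂ => (x.2 - x.1).im) '' (P ×ˢ P)).Countable := (hPc.prod hPc).image _
  have hall : ∀ t : ℝ, t ∈ (fun x : ℂ × ℂ => (x.2 - x.1).im) '' (P ×ˢ P) := by
    intro t
    have hre : ∀ z : ℂ, (z + t * I).re = z.re := by intro z; simp
    have hord : ∀ z : ℂ, c < z.re → meromorphicOrderAt F z =
        meromorphicOrderAt (h t) z + meromorphicOrderAt F (z + t * I) := by
      intro z hz
      have h1 : MeromorphicAt (fun s => F (s + t * I)) z :=
        (hF (z + t * I) (by rw [mem_ofPred_eq, hre]; exact hz)).comp_analyticAt (g := fun s => s + t * I)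
          (analyticAt_id.add analyticAt_const)
      have h2 : meromorphicOrderAt (fun s => F (s + t * I)) z = meromorphicOrderAt F (z + t * I) :=
        meromorphicOrderAt_fun_comp_add_const_eq_meromorphicOrderAt
      rw [meromorphicOrderAt_congr (hrel t z hz)]
      have h3 := meromorphicOrderAt_mul (hh t z hz) h1
      rw [← h2]
      exact h3
    have hht : meromorphicOrderAt (h t) (c : ℂ) ≠ ⊤ := by
      intro htop'
      have h5 : ∀ᶠ z in 𝓝[≠] (c : ℂ), ∀ᶠ w in 𝓝 z, h t w = 0 := by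
        rw [eventually_nhdsNE_eventually_nhds_iff]
        exact meromorphicOrderAt_eq_top_iff.1 htop'
      obtain ⟨z, hz1, hz2⟩ := (hcon.and_eventually h5).exists
      rw [Classical.not_imp] at hz1
      have h6 := hord z hz1.1
      have h7 : meromorphicOrderAt (h t) z = ⊤ := by
        rw [meromorphicOrderAt_eq_top_iff]
        exact hz2.filter_mono nhdsWithin_le_nhds
      rw [h7, WithTop.top_add] at h6
      exact htop z hz1.1 h6
    have h0 : ∀ᶠ z in 𝓝[≠] (c : ℂ), meromorphicOrderAt (h t) z = 0 := by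
      have h1 := (hh0 t).eventually_analyticAt
      have h3 := (meromorphicOrderAt_ne_top_iff_eventually_ne_zero (hh0 t)).1 hht
      filter_upwards [h1, h3] with w hw1 hw2
      rw [hw1.meromorphicOrderAt_eq, (hw1.analyticOrderAt_eq_zero).2 hw2]
      rfl
    obtain ⟨z, hz1, hz2⟩ := (hcon.and_eventually h0).exists
    rw [Classical.not_imp] at hz1
    have h6 := hord z hz1.1
    rw [hz2, zero_add] at h6
    refine ⟨(z, z + t * I), ⟨⟨hz1.1, hz1.2⟩, ⟨by simpa using hz1.1, ?_⟩⟩, by simp⟩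
    rw [← h6]
    exact hz1.2
  exact absurd (hQc.mono fun t _ => hall t) (Cardinal.not_countable_real)

/-- the analytic continuation of `F` to a disc that meets the boundary -/
theorem cross' {c : ℝ} {F : ℂ → ℂ} (hF : MeromorphicOn F {s | c < s.re})
    (htop : ∀ z : ℂ, c < z.re → meromorphicOrderAt F z ≠ ⊤) {h : ℝ → ℂ → ℂ}
    (hh : ∀ t, MeromorphicOn (h t) {s | c < s.re}) (hh0 : ∀ t, MeromorphicAt (h t) (c : ℂ))
    (hrel : ∀ t : ℝ, ∀ z : ℂ, c < z.re → F =ᶠ[𝓝[≠] z] fun s => h t s * F (s + t * I)) :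
    ∃ (q₁ : ℂ) (ρ : ℝ) (E : ℂ → ℂ), 0 < ρ ∧ c < q₁.re ∧ q₁.re - c < ρ ∧
      MeromorphicOn E (ball q₁ ρ) ∧ E =ᶠ[𝓝[≠] q₁] F := by
  have hc0 : ((c : ℂ)).re = c := Complex.ofReal_re c
  have h1 := no_accumulation' hF htop hh hh0 hrel
  rw [eventually_nhdsWithin_iff, Metric.eventually_nhds_iff_ball] at h1
  obtain ⟨R, hR, hord⟩ := h1
  have hord' : ∀ z : ℂ, c < z.re → z ∈ ball (c : ℂ) R → meromorphicOrderAt F z = 0 := by
    intro z hz hzb
    refine hord z hzb ?_ hz
    intro h2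
    rw [mem_singleton_iff] at h2
    rw [h2, hc0] at hz
    exact lt_irrefl _ hz
  set F₁ := toMeromorphicNFOn F {s | c < s.re} with hF₁
  have hF₁F : ∀ z : ℂ, c < z.re → F₁ =ᶠ[𝓝[≠] z] F := fun z hz => hF.toMeromorphicNFOn_eq_self_on_nhdsNE hz
  have hF₁NF : ∀ z : ℂ, c < z.re → MeromorphicNFAt F₁ z := fun z hz =>
    meromorphicNFOn_toMeromorphicNFOn F {s | c < s.re} hz
  have hF₁o : ∀ z : ℂ, c < z.re → z ∈ ball (c : ℂ) R → meromorphicOrderAt F₁ z = 0 := by
    intro z hz hzb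
    rw [meromorphicOrderAt_congr (hF₁F z hz)]
    exact hord' z hz hzb
  have hF₁an : ∀ z : ℂ, c < z.re → z ∈ ball (c : ℂ) R → AnalyticAt ℂ F₁ z := by
    intro z hz hzb
    exact ((hF₁NF z hz).meromorphicOrderAt_nonneg_iff_analyticAt).1 (by rw [hF₁o z hz hzb])
  have hF₁ne : ∀ z : ℂ, c < z.re → z ∈ ball (c : ℂ) R → F₁ z ≠ 0 := by
    intro z hz hzb
    exact ((hF₁NF z hz).meromorphicOrderAt_eq_zero_iff).1 (hF₁o z hz hzb)
  set u := logDeriv F₁ with hu
  have huan : ∀ z : ℂ, c < z.re → z ∈ ball (c : ℂ) R → AnalyticAt ℂ u z := by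
    intro z hz hzb
    have h2 := hF₁an z hz hzb
    exact h2.deriv.div h2 (hF₁ne z hz hzb)
  -- the relation
  have hrel₁ : ∀ t : ℝ, ∀ z : ℂ, c < z.re → F₁ =ᶠ[𝓝[≠] z] fun s => h t s * F₁ (s + t * I) := by
    intro t z hz
    have hz' : c < (z + t * I).re := by simpa using hz
    have h2 := shift_near (hF₁F (z + t * I) hz')
    filter_upwards [hF₁F z hz, hrel t z hz, h2] with s hs1 hs2 hs3
    rw [hs1, hs2, hs3]
  have hinR : ∀ z : ℂ, z ∈ ball (c : ℂ) (R / 2) → ∀ t ∈ Icc 0 (R / 2), z + t * I ∈ ball (c : ℂ) R := by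
    intro q hq t ht
    rw [mem_ball, dist_eq_norm] at hq ⊢
    have h1 : q + t * I - c = (q - c) + t * I := by ring
    rw [h1]
    refine lt_of_le_of_lt (norm_add_le _ _) ?_
    have h2 : ‖(t : ℂ) * I‖ = t := by
      rw [norm_mul, norm_I, mul_one, Complex.norm_real, Real.norm_eq_abs, abs_of_nonneg ht.1]
    rw [h2]
    have := ht.2
    linarith
  have hkrel : ∀ t ∈ Icc 0 (R / 2), ∀ z : ℂ, c < z.re → z ∈ ball (c : ℂ) (R / 2) →
      logDeriv (h t) =ᶠ[𝓝[≠] z] fun s => u s - u (s + t * I) := by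
    intro t ht z hz hzb
    have h2 : ∀ᶠ s in 𝓝[≠] z, ∀ᶠ w in 𝓝 s, F₁ w = h t w * F₁ (w + t * I) := by
      rw [eventually_nhdsNE_eventually_nhds_iff]
      exact hrel₁ t z hz
    have h3 : ∀ᶠ s in 𝓝[≠] z, AnalyticAt ℂ (h t) s := (hh t z hz).eventually_analyticAt
    have hopen : IsOpen ({s : ℂ | c < s.re} ∩ ball (c : ℂ) (R / 2)) := (isOpen_hp c).inter isOpen_ball
    have h4 : ∀ᶠ s in 𝓝[≠] z, c < s.re ∧ s ∈ ball (c : ℂ) (R / 2) :=
      Filter.Eventually.filter_mono nhdsWithin_le_nhds (hopen.mem_nhds ⟨hz, hzb⟩)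
    filter_upwards [h2, h3, h4] with s hs2 hs3 hs4
    have hsR : s ∈ ball (c : ℂ) R := ball_subset_ball (by linarith) hs4.2
    have hs5 : c < (s + t * I).re := by simpa using hs4.1
    have hs6 := hinR s hs4.2 t ht
    have hs7 : F₁ s = h t s * F₁ (s + t * I) := hs2.self_of_nhds
    have hs8 : h t s ≠ 0 := by
      intro h0
      rw [h0, zero_mul] at hs7
      exact hF₁ne s hs4.1 hsR hs7
    have hs9 : logDeriv F₁ s = logDeriv (fun w => h t w * F₁ (w + t * I)) s := by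
      rw [logDeriv_apply, logDeriv_apply, Filter.EventuallyEq.deriv_eq hs2, hs7]
    have hd : DifferentiableAt ℂ (fun w => F₁ (w + t * I)) s :=
      DifferentiableAt.comp (g := F₁) (f := fun w : ℂ => w + t * I) s (hF₁an _ hs5 hs6).differentiableAt
        (differentiableAt_id.add_const _)
    have hne : (fun w => F₁ (w + t * I)) s ≠ 0 := hF₁ne _ hs5 hs6
    rw [logDeriv_mul s hs8 hne hs3.differentiableAt hd] at hs9
    have hs10 : logDeriv (fun w => F₁ (w + t * I)) s = u (s + t * I) := by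
      rw [hu, logDeriv_apply, logDeriv_apply, deriv_comp_add_const]
    rw [hs10] at hs9
    rw [hu]
    rw [hs9]
    ring
  obtain ⟨q₁, ρ, hρ, hq1, hq2, hq3, K, hK⟩ := baire_step hR huan
    (k := fun t => logDeriv (h t)) (fun t _ => (hh0 t).logDeriv) hkrel
  obtain ⟨U, hU, hUu⟩ := extend_ball (huan q₁ hq1 hq3) hρ hK
  obtain ⟨V, hV0, hV⟩ := hU.isExactOn_ball.with_val_at q₁ 0
  set E : ℂ → ℂ := fun s => F₁ q₁ * Complex.exp (V s) with hE
  have hVd : DifferentiableOn ℂ V (ball q₁ ρ) := fun z hz => (hV z hz).differentiableAt.differentiableWithinAt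
  have hEd : DifferentiableOn ℂ E (ball q₁ ρ) := (hVd.cexp).const_mul _
  refine ⟨q₁, ρ, E, hρ, hq1, hq2, fun z hz => ((hEd.analyticOnNhd isOpen_ball) z hz).meromorphicAt, ?_⟩
  -- E = F₁ near q₁
  have hnear : ∀ᶠ s in 𝓝 q₁, U s = u s ∧ c < s.re ∧ s ∈ ball (c : ℂ) R ∧ s ∈ ball q₁ ρ := by
    have h2 : IsOpen ({s : ℂ | c < s.re} ∩ (ball (c : ℂ) R ∩ ball q₁ ρ)) :=
      (isOpen_hp c).inter (isOpen_ball.inter isOpen_ball)
    have h3 := h2.mem_nhds ⟨hq1, hq3, mem_ball_self hρ⟩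
    filter_upwards [hUu, h3] with s hs1 hs2
    exact ⟨hs1, hs2.1, hs2.2.1, hs2.2.2⟩
  obtain ⟨ε, hε, hb⟩ := Metric.eventually_nhds_iff_ball.1 hnear
  set Φ : ℂ → ℂ := fun s => F₁ s * Complex.exp (-V s) with hΦ
  have hΦd : ∀ s ∈ ball q₁ ε, HasDerivAt Φ 0 s := by
    intro s hs
    obtain ⟨h2, h3, h4, h5⟩ := hb s hs
    have h6 := (hF₁an s h3 h4).differentiableAt.hasDerivAt
    have h7 := ((hV s h5).neg).cexp
    have h8 := h6.mul h7
    have h9 : deriv F₁ s * Complex.exp (-V s) + F₁ s * (Complex.exp (-V s) * -U s) = 0 := by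
      rw [h2, hu, logDeriv_apply]
      field_simp [hF₁ne s h3 h4]
      ring
    change HasDerivAt Φ (deriv F₁ s * Complex.exp (-V s) + F₁ s * (Complex.exp (-V s) * -U s)) s at h8
    rw [h9] at h8
    exact h8
  have hconst : ∀ s ∈ ball q₁ ε, Φ s = Φ q₁ := by
    intro s hs
    have h2 := (convex_ball q₁ ε).is_const_of_fderivWithin_eq_zero (𝕜 := ℂ) (f := Φ)
      (fun z hz => (hΦd z hz).differentiableAt.differentiableWithinAt) (fun z hz => by
        rw [fderivWithin_of_isOpen isOpen_ball hz]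
        have := (hΦd z hz).hasFDerivAt.fderiv
        rw [this]
        ext
        simp) hs (mem_ball_self hε)
    exact h2
  have hEF₁ : ∀ s ∈ ball q₁ ε, E s = F₁ s := by
    intro s hs
    have h2 := hconst s hs
    simp only [hΦ, hV0, neg_zero, Complex.exp_zero, mul_one] at h2
    simp only [hE]
    rw [← h2, mul_assoc, ← Complex.exp_add, neg_add_cancel, Complex.exp_zero, mul_one]
  have h3 : E =ᶠ[𝓝[≠] q₁] F₁ := Filter.Eventually.filter_mono nhdsWithin_le_nhds
    (Metric.eventually_nhds_iff_ball.2 ⟨ε, hε, hEF₁⟩)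
  exact h3.trans (hF₁F q₁ hq1)

end Pool.Agent.H70.LS
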