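import Pool.Agent.H70.LS.Line

/-!
# Elementary and complete symmetric functions, uniformly
-/

set_option autoImplicit false

namespace Pool.Agent.H70.LS

open Pool.Agent.K7.H58.EP Pool.Agent.K7.H58.VR

section algebra

variable {R : Type*} [CommRing R] {κ κ' : Type*} [Fintype κ] [Fintype κ']

/-- the series `∑ w_k x^k T^k` -/
noncomputable def fac (w : ℕ → ℤ) (x : R) : PowerSeries R := PowerSeries.mk fun k => (w k : R) * x ^ k

/-- the product of the series of the members of a family -/
noncomputable def gs (w : ℕ → ℤ) (x : κ → R) : PowerSeries R := ∏ a, fac w (x a)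

/-- the coefficient of `T^j` of the product -/
noncomputable def gg (w : ℕ → ℤ) (x : κ → R) (j : ℕ) : R := PowerSeries.coeff j (gs w x)

/-- the weights of the exterior powers -/
def wE : ℕ → ℤ := fun k => if k ≤ 1 then 1 else 0

/-- the weights of the symmetric powers -/
def wH : ℕ → ℤ := fun _ => 1

theorem coeff_fac (w : ℕ → ℤ) (x : R) (k : ℕ) : PowerSeries.coeff k (fac w x) = (w k : R) * x ^ k :=
  PowerSeries.coeff_mk _ _

theorem gg_zero {w : ℕ → ℤ} (hw : w 0 = 1) (x : κ → R) : gg w x 0 = 1 := by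
  unfold gg gs
  rw [PowerSeries.coeff_zero_eq_constantCoeff_apply, map_prod]
  refine Finset.prod_eq_one fun a _ => ?_
  rw [← PowerSeries.coeff_zero_eq_constantCoeff_apply, coeff_fac, hw]
  simp

theorem gs_sum (w : ℕ → ℤ) (x : κ ⊕ κ' → R) :
    gs w x = gs w (fun a => x (Sum.inl a)) * gs w (fun a => x (Sum.inr a)) := by
  unfold gs
  rw [Fintype.prod_sum_type]

theorem gs_scale (w : ℕ → ℤ) (t : R) (x : κ → R) : gs w (fun a => x a * t) = PowerSeries.rescale t (gs w x) := by
  unfold gs
  rw [map_prod]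
  refine Finset.prod_congr rfl fun a _ => ?_
  ext k
  rw [PowerSeries.coeff_rescale, coeff_fac, coeff_fac, mul_pow]
  ring

theorem gg_scale (w : ℕ → ℤ) (t : R) (x : κ → R) (j : ℕ) : gg w (fun a => x a * t) j = t ^ j * gg w x j := by
  unfold gg
  rw [gs_scale, PowerSeries.coeff_rescale]

theorem gs_equiv (w : ℕ → ℤ) {x : κ → R} {y : κ' → R} (σ : κ ≃ κ') (h : ∀ a, x a = y (σ a)) :
    gs w x = gs w y := by
  unfold gs
  exact Fintype.prod_equiv σ _ _ fun a => by rw [h]

theorem gg_equiv (w : ℕ → ℤ) {x : κ → R} {y : κ' → R} (σ : κ ≃ κ') (h : ∀ a, x a = y (σ a)) (j : ℕ) :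
    gg w x j = gg w y j := by
  unfold gg
  rw [gs_equiv w σ h]

theorem gg_map {S : Type*} [CommRing S] (φ : R →+* S) (w : ℕ → ℤ) (x : κ → R) (j : ℕ) :
    φ (gg w x j) = gg w (fun a => φ (x a)) j := by
  unfold gg gs
  rw [← PowerSeries.coeff_map, map_prod]
  congr 1
  refine Finset.prod_congr rfl fun a _ => ?_
  ext k
  rw [PowerSeries.coeff_map, coeff_fac, coeff_fac, map_mul, map_pow, map_intCast]

theorem gg_mem {S : Subring R} (w : ℕ → ℤ) {x : κ → R} (h : ∀ a, x a ∈ S) (j : ℕ) : gg w x j ∈ S := by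
  classical
  unfold gg gs
  have key : ∀ s : Finset κ, ∀ j, PowerSeries.coeff j (∏ a ∈ s, fac w (x a)) ∈ S := by
    intro s
    induction s using Finset.induction_on with
    | empty =>
      intro j
      rw [Finset.prod_empty, PowerSeries.coeff_one]
      split_ifs
      · exact S.one_mem
      · exact S.zero_mem
    | insert a s ha ih =>
      intro j
      rw [Finset.prod_insert ha, PowerSeries.coeff_mul]
      refine S.sum_mem fun p _ => S.mul_mem ?_ (ih _)
      rw [coeff_fac]
      exact S.mul_mem (intCast_mem S _) (S.pow_mem (h a) _)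
  exact key _ j

theorem gs_unique (w : ℕ → ℤ) [Unique κ] (x : κ → R) : gs w x = fac w (x default) := by
  unfold gs
  rw [Fintype.prod_unique]

/-- the elementary symmetric functions -/
theorem ee_eq_gg (x : κ → R) (j : ℕ) : ee x j = gg wE x j := by
  unfold gg gs
  rw [← coeff_prod_one_add, ← Polynomial.coeff_coe]
  congr 1
  have h : ((∏ a, (1 + Polynomial.C (x a) * Polynomial.X) : Polynomial R) : PowerSeries R) =
      ∏ a, ((1 + Polynomial.C (x a) * Polynomial.X : Polynomial R) : PowerSeries R) :=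
    map_prod (Polynomial.coeToPowerSeries.ringHom) _ _
  rw [h]
  refine Finset.prod_congr rfl fun a _ => ?_
  ext k
  rw [Polynomial.coeff_coe, coeff_fac, Polynomial.coeff_add, Polynomial.coeff_C_mul, Polynomial.coeff_one,
    Polynomial.coeff_X]
  unfold wE
  rcases Nat.lt_or_ge 1 k with h1 | h1
  · rw [if_neg (by omega), if_neg (by omega), if_neg (by omega)]
    simp
  · interval_cases k
    · simp
    · simp

end algebra

variable {n m : ℕ}

/-- the families of the eigenvalues -/
noncomputable def gl1 (α : GLData n) : Fin n → Fam := fun i => br fun p => α p i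

/-- the families of the inverse eigenvalues -/
noncomputable def gl2 (α : GLData n) : Fin n → Fam := fun i => br fun p => (α p i)⁻¹

/-- the families of the eigenvalues of the standard representation -/
noncomputable def stdF (b : GSpData m) : (Fin m ⊕ Fin m) ⊕ Unit → Fam := fun a => evG (fun p => (b p).2) (mon (sv a))

theorem stdF_inl (b : GSpData m) (i : Fin m) : stdF b (Sum.inl (Sum.inl i)) = br fun p => (b p).2 i :=
  evG_bas _ i

theorem stdF_inr (b : GSpData m) (i : Fin m) : stdF b (Sum.inl (Sum.inr i)) = br fun p => ((b p).2 i)⁻¹ :=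
  evG_neg_bas _ i

theorem stdF_unit (b : GSpData m) (u : Unit) : stdF b (Sum.inr u) = 1 := evG_zero _

theorem gs_stdF (w : ℕ → ℤ) (b : GSpData m) : gs w (stdF b) =
    (∏ i, fac w (br fun p => (b p).2 i)) * (∏ i, fac w (br fun p => ((b p).2 i)⁻¹)) * fac w 1 := by
  rw [gs_sum, gs_sum, gs_unique (κ := Unit)]
  simp only [stdF_inl, stdF_inr, stdF_unit]
  rfl

theorem yy_neg (p : Nat.Primes) (z : ℂ) : (yy p z)⁻¹ = yy p (-z) := by
  rw [inv_eq_iff_mul_eq_one, ← yy_add, add_neg_cancel, yy_zero]

/-- the series of the standard representation on the induced representations -/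
theorem gs_ind (w : ℕ → ℤ) (α : GLData n) (b : GSpData m) (z : ℂ) : gs w (stdF (ind α b z)) =
    PowerSeries.rescale (tw z) (gs w (gl1 α)) * PowerSeries.rescale (tw (-z)) (gs w (gl2 α)) *
      gs w (stdF b) := by
  rw [← gs_scale, ← gs_scale, gs_stdF, gs_stdF, Fin.prod_univ_add, Fin.prod_univ_add]
  have h1 : ∏ i : Fin n, fac w (br fun p => (ind α b z p).2 (Fin.castAdd m i)) =
      gs w (fun i => gl1 α i * tw z) := by
    unfold gs
    refine Finset.prod_congr rfl fun i _ => ?_
    congr 1
    change _ = br (fun p => α p i) * tw z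
    rw [← br_unr, br_mul]
    congr 1
    funext p
    simp [ind]
  have h2 : ∏ i : Fin m, fac w (br fun p => (ind α b z p).2 (Fin.natAdd n i)) =
      ∏ i : Fin m, fac w (br fun p => (b p).2 i) := by
    refine Finset.prod_congr rfl fun i _ => ?_
    congr 2
    funext p
    simp [ind]
  have h3 : ∏ i : Fin n, fac w (br fun p => ((ind α b z p).2 (Fin.castAdd m i))⁻¹) =
      gs w (fun i => gl2 α i * tw (-z)) := by
    unfold gs
    refine Finset.prod_congr rfl fun i _ => ?_
    congr 1
    change _ = br (fun p => (α p i)⁻¹) * tw (-z)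
    rw [← br_unr, br_mul]
    congr 1
    funext p
    simp only [ind, Fin.append_left, mul_inv]
    congr 1
    exact yy_neg p z
  have h4 : ∏ i : Fin m, fac w (br fun p => ((ind α b z p).2 (Fin.natAdd n i))⁻¹) =
      ∏ i : Fin m, fac w (br fun p => ((b p).2 i)⁻¹) := by
    refine Finset.prod_congr rfl fun i _ => ?_
    congr 2
    funext p
    simp [ind]
  rw [h1, h2, h3, h4]
  ring

/-- the expansion in powers of the twist -/
theorem coeff_ind (w : ℕ → ℤ) (α : GLData n) (b : GSpData m) (z : ℂ) (P : PowerSeries Fam) (D : ℕ) :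
    PowerSeries.coeff D (P * gs w (stdF (ind α b z))) =
      ∑ i ∈ (Finset.HasAntidiagonal.antidiagonal D).sigma (fun p => Finset.HasAntidiagonal.antidiagonal p.1),
        gg w (gl1 α) i.2.1 * gg w (gl2 α) i.2.2 * PowerSeries.coeff i.1.2 (P * gs w (stdF b)) *
          tw (((i.2.1 : ℤ) - i.2.2 : ℤ) * z) := by
  rw [gs_ind]
  have h1 : P * (PowerSeries.rescale (tw z) (gs w (gl1 α)) * PowerSeries.rescale (tw (-z)) (gs w (gl2 α)) *
      gs w (stdF b)) = (PowerSeries.rescale (tw z) (gs w (gl1 α)) *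
        PowerSeries.rescale (tw (-z)) (gs w (gl2 α))) * (P * gs w (stdF b)) := by ring
  rw [h1, PowerSeries.coeff_mul, Finset.sum_sigma]
  refine Finset.sum_congr rfl fun p _ => ?_
  rw [PowerSeries.coeff_mul, Finset.sum_mul]
  refine Finset.sum_congr rfl fun q _ => ?_
  rw [PowerSeries.coeff_rescale, PowerSeries.coeff_rescale, tw_pow, tw_pow]
  have h2 : tw (((q.1 : ℤ) - q.2 : ℤ) * z) = tw (q.1 * z) * tw (q.2 * -z) := by
    rw [← tw_add]
    congr 1
    push_cast
    ring
  change tw (q.1 * z) * gg w (gl1 α) q.1 * (tw (q.2 * -z) * gg w (gl2 α) q.2) * _ = _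
  rw [h2]
  ring

/-- isolation for sums with an exponent function -/
theorem strip_isolate' {ι : Type*} (T : Finset ι) (e : ι → ℤ) (y : ι → Fam) (hy : ∀ i ∈ T, y i ∈ Tm)
    {a b : ℝ} (hab : a < b) (h : ∀ t : ℝ, ∑ i ∈ T, y i * tw (e i * (t * Complex.I)) ∈ GU (strip a b)) :
    (∀ k : ℤ, k ≠ 0 → ∑ i ∈ T with e i = k, y i ∈ Good) ∧ ∑ i ∈ T with e i = 0, y i ∈ GU (strip a b) := by
  classical
  have h1 : ∀ z : ℂ, ∑ i ∈ T, y i * tw (e i * z) =
      ∑ k ∈ T.image e, (∑ i ∈ T with e i = k, y i) * tw (k * z) := by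
    intro z
    rw [← Finset.sum_fiberwise_of_maps_to (s := T) (t := T.image e) (g := e)
      (fun l hl => Finset.mem_image_of_mem _ hl)]
    refine Finset.sum_congr rfl fun k _ => ?_
    rw [Finset.sum_mul]
    refine Finset.sum_congr rfl fun i hi => ?_
    rw [(Finset.mem_filter.1 hi).2]
  have hT : ∀ k, ∑ i ∈ T with e i = k, y i ∈ Tm := fun k =>
    Tm.sum_mem fun i hi => hy i (Finset.mem_filter.1 hi).1
  have h2 : ∀ k : ℤ, k ≠ 0 → ∑ i ∈ T with e i = k, y i ∈ Good := by
    intro k hk
    by_cases hkT : k ∈ T.image e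
    · refine strip_isolate _ (T.image e) rfl (fun k => ∑ i ∈ T with e i = k, y i) (fun k _ => hT k) a b hab ?_
        k hkT hk
      intro t
      rw [← h1]
      exact h t
    · have h3 : T.filter (fun i => e i = k) = ∅ := by
        rw [Finset.filter_eq_empty_iff]
        intro i hi h4
        exact hkT (Finset.mem_image.2 ⟨i, hi, h4⟩)
      rw [h3, Finset.sum_empty]
      exact Good.zero_mem
  refine ⟨h2, ?_⟩
  have h3 := h 0
  rw [h1] at h3
  by_cases h0 : (0 : ℤ) ∈ T.image e
  · rw [← Finset.add_sum_erase _ _ h0] at h3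
    have h4 : ∑ k ∈ (T.image e).erase 0, (∑ i ∈ T with e i = k, y i) * tw (k * ((0 : ℝ) * Complex.I)) ∈
        GU (strip a b) := by
      refine good_le_GU _ (Good.sum_mem fun k hk => good_tw (h2 k (Finset.ne_of_mem_erase hk)) _)
    have h5 := (GU (strip a b)).sub_mem h3 h4
    rw [add_sub_cancel_right, Int.cast_zero, zero_mul, tw_zero, mul_one] at h5
    exact h5
  · have h3 : T.filter (fun i => e i = 0) = ∅ := by
      rw [Finset.filter_eq_empty_iff]
      intro i hi h4
      exact h0 (Finset.mem_image.2 ⟨i, hi, h4⟩)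
    rw [h3, Finset.sum_empty]
    exact (GU _).zero_mem

end Pool.Agent.H70.LS
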