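import Pool.Graph.R_pool_sql_team_seeded_35f281b4.K7.H58.VR.FinalU

/-!
# Continuation to a neighbourhood of a set
-/

set_option autoImplicit false

namespace Pool.Agent.H70.LS

open Complex Filter Topology Set Metric
open Pool.Agent.K7.H58.EP Pool.Agent.K7.H58.VR

/-- `f` agrees in some half-plane `Re s > c` with a function `F` that is meromorphic at every point of `U` (so in a
neighbourhood of every point of `U`).  For `U` the whole plane this is `Continues f`. -/
def ContinuesOn (U : Set ℂ) (f : ℂ → ℂ) : Prop :=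
  ∃ F : ℂ → ℂ, MeromorphicOn F U ∧ ∃ c : ℝ, ∀ s : ℂ, c < s.re → F s = f s

/-- the open horizontal strip `a < Im s < b` -/
def strip (a b : ℝ) : Set ℂ := {s : ℂ | a < s.im ∧ s.im < b}

/-- the horizontal line `Im s = y` -/
def hline (y : ℝ) : Set ℂ := {s : ℂ | s.im = y}

/-- the tame families whose Euler product continues to a neighbourhood of `U` -/
noncomputable def GU (U : Set ℂ) : AddSubgroup Fam where
  carrier := {x | x ∈ Tm ∧ ∃ F : ℂ → ℂ, MeromorphicOn F U ∧ ∃ c : ℝ, ∀ s : ℂ, c < s.re →
    F s = Complex.exp (Lam x s)}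
  zero_mem' := ⟨Tm.zero_mem, fun _ => 1, MeromorphicOn.const 1, 0, fun s _ => by
    rw [Lam_zero, Complex.exp_zero]⟩
  add_mem' := by
    rintro x y ⟨hx, F, hF, c, hc⟩ ⟨hy, G, hG, d, hd⟩
    obtain ⟨a, ha⟩ := exists_an hx
    obtain ⟨b, hb⟩ := exists_an hy
    refine ⟨Tm.add_mem hx hy, F * G, hF.mul hG, max (max a b) (max c d), fun s hs => ?_⟩
    have h1 : a < s.re := lt_of_le_of_lt ((le_max_left _ _).trans (le_max_left _ _)) hs
    have h2 : b < s.re := lt_of_le_of_lt ((le_max_right _ _).trans (le_max_left _ _)) hs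
    have h3 : c < s.re := lt_of_le_of_lt ((le_max_left _ _).trans (le_max_right _ _)) hs
    have h4 : d < s.re := lt_of_le_of_lt ((le_max_right _ _).trans (le_max_right _ _)) hs
    rw [Pi.mul_apply, hc s h3, hd s h4, Lam_add (ha.1 s h1) (hb.1 s h2), Complex.exp_add]
  neg_mem' := by
    rintro x ⟨hx, F, hF, c, hc⟩
    refine ⟨Tm.neg_mem hx, F⁻¹, hF.inv, c, fun s hs => ?_⟩
    rw [Pi.inv_apply, hc s hs, Lam_neg, Complex.exp_neg]

theorem mem_GU {U : Set ℂ} {x : Fam} : x ∈ GU U ↔ x ∈ Tm ∧ ∃ F : ℂ → ℂ, MeromorphicOn F U ∧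
    ∃ c : ℝ, ∀ s : ℂ, c < s.re → F s = Complex.exp (Lam x s) := Iff.rfl

theorem GU_tame {U : Set ℂ} {x : Fam} (h : x ∈ GU U) : x ∈ Tm := h.1

theorem GU_mono {U V : Set ℂ} (h : U ⊆ V) : GU V ≤ GU U := by
  rintro x ⟨hx, F, hF, c, hc⟩
  exact ⟨hx, F, hF.mono_set h, c, hc⟩

theorem good_le_GU (U : Set ℂ) : Good ≤ GU U := by
  rintro x ⟨hx, F, hF, c, hc⟩
  exact ⟨hx, F, hF.mono_set (subset_univ _), c, hc⟩

theorem GU_tw {U V : Set ℂ} {x : Fam} (hx : x ∈ GU U) (w : ℂ) (h : ∀ s ∈ V, s + w ∈ U) : x * tw w ∈ GU V := by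
  obtain ⟨hx, F, hF, c, hc⟩ := hx
  refine ⟨Tm.mul_mem hx (Basic.tw w).tame, fun s => F (s + w), ?_, c - w.re, fun s hs => ?_⟩
  · intro s hs
    exact (hF (s + w) (h s hs)).comp_analyticAt (g := fun s => s + w)
      (analyticAt_id.add analyticAt_const)
  · change F (s + w) = _
    rw [Lam_tw, hc]
    rw [Complex.add_re]
    linarith

/-- points of meromorphy form an open set -/
theorem isOpen_mero (G : ℂ → ℂ) : IsOpen {z : ℂ | MeromorphicAt G z} := by
  rw [isOpen_iff_mem_nhds]
  intro z hz
  have h1 := MeromorphicAt.eventually_analyticAt hz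
  rw [eventually_nhdsWithin_iff] at h1
  filter_upwards [h1] with w hw
  by_cases h : w = z
  · rw [h]; exact hz
  · exact (hw h).meromorphicAt

/-- gluing along the horizontal rays -/
theorem ext_of_rays {f : ℂ → ℂ} {a c : ℝ} (hf : DifferentiableOn ℂ f {s | a < s.re})
    (h : ∀ y : ℝ, ∃ G : ℂ → ℂ, MeromorphicOn G {s | s.im = y ∧ c < s.re} ∧
      ∃ d : ℝ, ∀ s : ℂ, d < s.re → G s = f s) : Ext f c := by
  choose G hG d hd using h
  have hfm : MeromorphicOn f {s | a < s.re} := fun s hs =>
    ((hf.analyticOnNhd (isOpen_hp a)) s hs).meromorphicAt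
  have hGf : ∀ y : ℝ, ∀ z : ℂ, d y < z.re → a < z.re → MeromorphicAt (G y) z := by
    intro y z hz hza
    refine (hfm z hza).congr ?_
    exact (near_of_far (hd y) hz).symm
  -- comparison
  have hcmp : ∀ (y : ℝ) (w : ℂ) (F : ℂ → ℂ) (e : ℝ), w.im = y → c < w.re →
      (∀ s : ℂ, s.im = y → w.re ≤ s.re → MeromorphicAt F s) → (∀ s : ℂ, e < s.re → F s = f s) →
      G y =ᶠ[𝓝[≠] w] F := by
    intro y w F e hwy hcw hF he
    set u₀ : ℂ := ⟨max w.re (max (d y) e) + 1, y⟩ with hu₀
    have hpre : IsPreconnected {s : ℂ | s.im = y ∧ w.re ≤ s.re} := by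
      refine Convex.isPreconnected ?_
      intro p hp q hq α β hα hβ hαβ
      constructor
      · simp only [Complex.add_im, Complex.smul_im, hp.1, hq.1, smul_eq_mul]
        rw [← add_mul, hαβ, one_mul]
      · simp only [Complex.add_re, Complex.smul_re, smul_eq_mul]
        have h1 := mul_le_mul_of_nonneg_left hp.2 hα
        have h2 := mul_le_mul_of_nonneg_left hq.2 hβ
        have h3 : α * w.re + β * w.re = w.re := by rw [← add_mul, hαβ, one_mul]
        linarith
    refine eq_near_of_near hpre (fun s hs => hG y s ⟨hs.1, lt_of_lt_of_le hcw hs.2⟩)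
      (fun s hs => hF s hs.1 hs.2) (u₀ := u₀) ⟨rfl, ?_⟩ ?_ ⟨hwy, le_rfl⟩
    · have := le_max_left w.re (max (d y) e)
      simp only [hu₀]
      linarith
    · have h1 : d y < u₀.re := by
        have := (le_max_left (d y) e).trans (le_max_right w.re (max (d y) e))
        simp only [hu₀]
        linarith
      have h2 : e < u₀.re := by
        have := (le_max_right (d y) e).trans (le_max_right w.re (max (d y) e))
        simp only [hu₀]
        linarith
      exact (near_of_far (hd y) h1).trans (near_of_far he h2).symm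
  obtain ⟨F, hF1, hF2⟩ := glue_germs (D := {s : ℂ | c < s.re}) (g := fun z => G z.im)
    (fun z hz => hG z.im z ⟨rfl, hz⟩) (by
      intro z hz
      change c < z.re at hz
      set y := z.im with hy
      set D : ℝ := max z.re (max (d y) a) + 1 with hD
      set K : Set ℂ := {s : ℂ | s.im = y ∧ z.re ≤ s.re ∧ s.re ≤ D} with hK
      have hKc : IsCompact K := by
        have : K = (fun r : ℝ => (⟨r, y⟩ : ℂ)) '' Icc z.re D := by
          ext s
          constructor
          · rintro ⟨h1, h2, h3⟩
            exact ⟨s.re, ⟨h2, h3⟩, by apply Complex.ext <;> simp [h1]⟩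
          · rintro ⟨r, ⟨h2, h3⟩, rfl⟩
            exact ⟨rfl, h2, h3⟩
        rw [this]
        refine isCompact_Icc.image ?_
        have h2 : (fun r : ℝ => (⟨r, y⟩ : ℂ)) = fun r : ℝ => (r : ℂ) + (y : ℂ) * I := by
          funext r
          apply Complex.ext <;> simp
        rw [h2]
        fun_prop
      obtain ⟨δ, hδ, hδK⟩ := hKc.exists_thickening_subset_open (isOpen_mero (G y))
        (fun s hs => hG y s ⟨hs.1, lt_of_lt_of_le hz hs.2.1⟩)
      have h1 : ∀ᶠ w in 𝓝[≠] z, dist w z < δ ∧ c < w.re := by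
        refine Filter.Eventually.filter_mono nhdsWithin_le_nhds ?_
        exact (isOpen_ball.inter (isOpen_hp c)).mem_nhds ⟨mem_ball_self hδ, hz⟩
      filter_upwards [h1] with w hw
      refine hcmp w.im w (G y) (d y) rfl hw.2 ?_ (hd y)
      intro s hs1 hs2
      by_cases hs3 : s.re ≤ D
      · refine hδK (Metric.mem_thickening_iff.2 ⟨⟨max s.re z.re, y⟩, ⟨rfl, le_max_right _ _, ?_⟩, ?_⟩)
        · refine max_le hs3 ?_
          have := le_max_left z.re (max (d y) a)
          rw [hD]
          linarith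
        · refine lt_of_le_of_lt ?_ hw.1
          rw [dist_eq_norm, dist_eq_norm]
          have e1 : s - (⟨max s.re z.re, y⟩ : ℂ) = ⟨s.re - max s.re z.re, w.im - z.im⟩ := by
            apply Complex.ext
            · simp
            · simp [hs1, hy]
          have e2 : w - z = ⟨w.re - z.re, w.im - z.im⟩ := by apply Complex.ext <;> simp
          rw [e1, e2, Complex.norm_def, Complex.norm_def]
          apply Real.sqrt_le_sqrt
          rw [Complex.normSq_mk, Complex.normSq_mk]
          have h5 : (s.re - max s.re z.re) * (s.re - max s.re z.re) ≤ (w.re - z.re) * (w.re - z.re) := by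
            rcases le_total s.re z.re with h | h
            · rw [max_eq_right h]
              nlinarith
            · rw [max_eq_left h]
              nlinarith
          linarith
      · push Not at hs3
        refine hGf y s ?_ ?_
        · have := (le_max_left (d y) a).trans (le_max_right z.re (max (d y) a))
          rw [hD] at hs3
          linarith
        · have := (le_max_right (d y) a).trans (le_max_right z.re (max (d y) a))
          rw [hD] at hs3
          linarith)
  refine ⟨F, fun z hz => (hG z.im z ⟨rfl, hz⟩).congr (hF1 z hz).symm, max a c, fun s hs => ?_⟩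
  have hsa : a < s.re := lt_of_le_of_lt (le_max_left _ _) hs
  have hsc : c < s.re := lt_of_le_of_lt (le_max_right _ _) hs
  refine hF2 s f ?_ ((hf.analyticOnNhd (isOpen_hp a)) s hsa).continuousAt
  exact hcmp s.im s f a rfl hsc (fun z hz1 hz2 => hfm z (lt_of_lt_of_le hsa hz2)) (fun _ _ => rfl)

/-- a family that continues along all horizontal lines is good -/
theorem good_of_lines {x : Fam} (hx : x ∈ Tm) (h : ∀ y : ℝ, x ∈ GU (hline y)) : x ∈ Good := by
  obtain ⟨c₀, hc₀⟩ := exists_an hx
  refine ⟨hx, ?_⟩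
  have hfd : DifferentiableOn ℂ (fun s => Complex.exp (Lam x s)) {s : ℂ | c₀ < s.re} := hc₀.2.cexp
  obtain ⟨F, hF, hF'⟩ := ext_univ hfd fun c => ext_of_rays hfd fun y => by
    obtain ⟨_, G, hG, d, hd⟩ := h y
    exact ⟨G, hG.mono_set fun s hs => hs.1, d, hd⟩
  exact ⟨F, hF, c₀, hF'⟩

theorem strip_shift {a b a' b' : ℝ} {w : ℂ} (h1 : a ≤ a' + w.im) (h2 : b' + w.im ≤ b) :
    ∀ s ∈ strip a' b', s + w ∈ strip a b := by
  rintro s ⟨hs1, hs2⟩
  constructor
  · rw [Complex.add_im]; linarith
  · rw [Complex.add_im]; linarith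

/-- **Isolation in strips.** -/
theorem strip_isolate (n : ℕ) : ∀ (J : Finset ℤ), J.card = n → ∀ (x : ℤ → Fam), (∀ j ∈ J, x j ∈ Tm) →
    ∀ a b : ℝ, a < b → (∀ t : ℝ, ∑ j ∈ J, x j * tw (j * (t * I)) ∈ GU (strip a b)) →
    ∀ j ∈ J, j ≠ 0 → x j ∈ Good := by
  classical
  induction n using Nat.strong_induction_on with
  | _ n ih =>
    intro J hJ x hx a b hab h j₀ hj₀ hne
    by_cases hsing : J = {j₀}
    · refine good_of_lines (hx j₀ hj₀) fun y => ?_
      set m : ℝ := (a + b) / 2 with hm
      set t : ℝ := (m - y) / j₀ with ht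
      have hj0 : (j₀ : ℝ) ≠ 0 := by exact_mod_cast hne
      have h1 := h (-t)
      rw [hsing, Finset.sum_singleton] at h1
      have h2 := GU_tw (V := hline y) h1 (-(j₀ * ((-t : ℝ) * I))) (by
        intro s hs
        have e1 : (s + -(j₀ * (((-t : ℝ) : ℂ) * I))).im = m := by
          have h3 : (-((j₀ : ℂ) * (((-t : ℝ) : ℂ) * I))).im = j₀ * t := by simp
          rw [Complex.add_im, h3]
          change s.im = y at hs
          rw [hs, ht]
          field_simp
          ring
        constructor
        · rw [e1, hm]; linarith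
        · rw [e1, hm]; linarith)
      rw [mul_assoc, ← tw_add, add_neg_cancel, tw_zero, mul_one] at h2
      exact h2
    · obtain ⟨k, hk, hkj⟩ : ∃ k ∈ J, k ≠ j₀ := by
        by_contra hcon
        push Not at hcon
        exact hsing (Finset.eq_singleton_iff_unique_mem.2 ⟨hj₀, hcon⟩)
      set δ : ℝ := (b - a) / 4 with hδ
      have hδ0 : 0 < δ := by simp only [hδ]; linarith
      set ε : ℝ := δ / (|(k : ℝ)| + 1) with hε
      have hk1 : (0 : ℝ) < |(k : ℝ)| + 1 := by positivity
      have hε0 : 0 < ε := by positivity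
      have hdiff : ∀ t : ℝ, |t| < ε → x j₀ * (tw ((j₀ - k) * (t * I)) - 1) ∈ Good := by
        intro u hu
        refine ih (J.erase k).card (by rw [← hJ]; exact Finset.card_erase_lt_of_mem hk) (J.erase k) rfl
          (fun j => x j * (tw ((j - k) * (u * I)) - 1))
          (fun j hj => Tm.mul_mem (hx j (Finset.mem_of_mem_erase hj)) (Tm.sub_mem (tw_tame _) Tm.one_mem))
          (a + δ) (b - δ) (by simp only [hδ]; linarith) ?_ j₀ (Finset.mem_erase.2 ⟨hkj.symm, hj₀⟩) hne
        intro t
        have hku : |(k : ℝ) * u| ≤ δ := by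
          rw [abs_mul]
          have h3 : |u| ≤ δ / (|(k : ℝ)| + 1) := hu.le
          rw [le_div_iff₀ hk1] at h3
          nlinarith [abs_nonneg u, abs_nonneg (k : ℝ)]
        obtain ⟨hku1, hku2⟩ := abs_le.1 hku
        have h1 := GU_tw (V := strip (a + δ) (b - δ)) (h (t + u)) (-(k * (u * I))) (by
          refine strip_shift ?_ ?_
          · have : (-((k : ℂ) * ((u : ℂ) * I))).im = -(k * u) := by simp
            rw [this]; linarith
          · have : (-((k : ℂ) * ((u : ℂ) * I))).im = -(k * u) := by simp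
            rw [this]; linarith)
        have h2 := GU_mono (V := strip a b) (U := strip (a + δ) (b - δ))
          (fun s hs => ⟨by have := hs.1; linarith, by have := hs.2; linarith⟩) (h t)
        have h3 := (GU _).sub_mem h1 h2
        rw [Finset.sum_mul, ← Finset.sum_sub_distrib, ← Finset.add_sum_erase J _ hk] at h3
        have h4 : x k * tw (k * ((t + u : ℝ) * I)) * tw (-(k * (u * I))) - x k * tw (k * (t * I)) = 0 := by
          rw [mul_assoc, ← tw_add]
          have : (k : ℂ) * ((t + u : ℝ) * I) + -(k * (u * I)) = k * (t * I) := by push_cast; ring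
          rw [this, sub_self]
        rw [h4, zero_add] at h3
        refine (congrArg (· ∈ GU (strip (a + δ) (b - δ))) ?_).mp h3
        refine Finset.sum_congr rfl fun j _ => ?_
        have h5 : tw (j * ((t + u : ℝ) * I)) * tw (-(k * (u * I))) = tw (j * (t * I)) * tw ((j - k) * (u * I)) := by
          rw [← tw_add, ← tw_add]
          congr 1
          push_cast
          ring
        linear_combination (x j) * h5
      have hjk : ((j₀ : ℝ) - k) ≠ 0 := sub_ne_zero.2 (by exact_mod_cast hkj.symm)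
      refine good_of_small (hx j₀ hj₀) (ε := ε * |(j₀ : ℝ) - k|) (by positivity) fun t ht => ?_
      set u : ℝ := t / ((j₀ : ℝ) - k) with hu
      have hu' : |u| < ε := by
        rw [hu, abs_div, div_lt_iff₀ (abs_pos.2 hjk)]
        exact ht
      have h6 := Good.neg_mem (hdiff u hu')
      have h7 : ((j₀ : ℂ) - k) * (u * I) = t * I := by
        have h8 : ((j₀ : ℝ) - k) * u = t := by rw [hu]; field_simp
        have h9 : ((j₀ : ℂ) - k) * u = t := by exact_mod_cast congrArg (fun r : ℝ => (r : ℂ)) h8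
        rw [← mul_assoc, h9]
      rw [h7] at h6
      have h8 : -(x j₀ * (tw (t * I) - 1)) = x j₀ - x j₀ * tw (t * I) := by ring
      rwa [h8] at h6

end Pool.Agent.H70.LS
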