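import Pool.Agent.H70.LS.Cross

/-!
# Continuation along one horizontal line suffices
-/

set_option autoImplicit false

namespace Pool.Agent.H70.LS

open Complex Filter Topology Set Metric
open Pool.Agent.K7.H58.EP Pool.Agent.K7.H58.VR

theorem mero_shift {G : ℂ → ℂ} {z w : ℂ} (h : MeromorphicAt G (z + w)) : MeromorphicAt (fun s => G (s + w)) z :=
  h.comp_analyticAt (g := fun s => s + w) (analyticAt_id.add analyticAt_const)

/-- a family with `x - T^{it} x` continuing along the real axis for all real `t` is good -/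
theorem good_of_line0 {x : Fam} (hx : x ∈ Tm) (h : ∀ t : ℝ, x - x * tw (t * I) ∈ GU (hline 0)) : x ∈ Good := by
  classical
  obtain ⟨c₀, hc₀⟩ := exists_an hx
  refine ⟨hx, ?_⟩
  set f : ℂ → ℂ := fun s => Complex.exp (Lam x s) with hf
  have hfd : DifferentiableOn ℂ f {s : ℂ | c₀ < s.re} := hc₀.2.cexp
  suffices hall : ∀ c, Ext f c by
    obtain ⟨F, hF, hF'⟩ := ext_univ hfd hall
    exact ⟨F, hF, c₀, hF'⟩
  have hfac : ∀ (t : ℝ) (s : ℂ), c₀ < s.re → Complex.exp (Lam (x - x * tw (t * I)) s) * f (s + t * I) = f s := by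
    intro t s hs
    have hs' : c₀ < (s + t * I).re := by simpa using hs
    have h4 : Summable fun p : Nat.Primes => ell ((yy p s : ℂˣ) : ℂ) ((x * tw (t * I)) p) :=
      summable_tw (hc₀.1 _ hs')
    have h6 : Summable fun p : Nat.Primes => ell ((yy p s : ℂˣ) : ℂ) ((-(x * tw (t * I))) p) := by
      refine h4.neg.congr fun p => ?_
      rw [Pi.neg_apply, map_neg]
    rw [sub_eq_add_neg, Lam_add (hc₀.1 s hs) h6, Lam_neg, Lam_tw, hf, ← Complex.exp_add]
    congr 1
    ring
  set hm : ℝ → ℂ → ℂ := fun t => Classical.choose (h t).2 with hhm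
  have hm1 : ∀ t, MeromorphicOn (hm t) (hline 0) := fun t => (Classical.choose_spec (h t).2).1
  have hm2 : ∀ t, ∃ b : ℝ, ∀ s : ℂ, b < s.re → hm t s = Complex.exp (Lam (x - x * tw (t * I)) s) :=
    fun t => (Classical.choose_spec (h t).2).2
  -- continuation along a ray of the real axis gives the continuation to the half-plane
  have ray_ext : ∀ c : ℝ, (∃ F : ℂ → ℂ, MeromorphicOn F {s : ℂ | s.im = 0 ∧ c < s.re} ∧
      ∃ d : ℝ, ∀ s : ℂ, d < s.re → F s = f s) → Ext f c := by
    rintro c ⟨F₀, hF₀, d, hd⟩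
    refine ext_of_rays hfd fun y => ?_
    obtain ⟨b, hb⟩ := hm2 y
    refine ⟨fun s => F₀ (s + -(y * I)) / hm y (s + -(y * I)), ?_, max b (max c₀ d), fun s hs => ?_⟩
    · rintro s ⟨hs1, hs2⟩
      have e1 : (s + -((y : ℂ) * I)).im = 0 := by simp [hs1]
      have e2 : (s + -((y : ℂ) * I)).re = s.re := by simp
      exact (mero_shift (hF₀ _ ⟨e1, by rw [e2]; exact hs2⟩)).div (mero_shift (hm1 y _ e1))
    · have hs1 : b < s.re := lt_of_le_of_lt (le_max_left _ _) hs
      have hs2 : c₀ < s.re := lt_of_le_of_lt ((le_max_left _ _).trans (le_max_right _ _)) hs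
      have hs3 : d < s.re := lt_of_le_of_lt ((le_max_right _ _).trans (le_max_right _ _)) hs
      have e2 : (s + -((y : ℂ) * I)).re = s.re := by simp
      have h1 := hfac y (s + -(y * I)) (by rw [e2]; exact hs2)
      have e3 : s + -((y : ℂ) * I) + y * I = s := by ring
      rw [e3] at h1
      change F₀ (s + -(y * I)) / hm y (s + -(y * I)) = f s
      rw [hd _ (by rw [e2]; exact hs3), hb _ (by rw [e2]; exact hs1), ← h1,
        mul_div_cancel_left₀ _ (Complex.exp_ne_zero _)]
  by_contra hcon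
  push Not at hcon
  obtain ⟨b₀, hb₀⟩ := hcon
  set S : Set ℝ := {c | ∃ F : ℂ → ℂ, MeromorphicOn F {s : ℂ | s.im = 0 ∧ c < s.re} ∧
      ∃ d : ℝ, ∀ s : ℂ, d < s.re → F s = f s} with hS
  have hSn : S.Nonempty := ⟨c₀, f, fun s hs => ((hfd.analyticOnNhd (isOpen_hp c₀)) s hs.2).meromorphicAt,
    c₀, fun _ _ => rfl⟩
  have hSb : BddBelow S := by
    refine ⟨b₀, fun c hc => ?_⟩
    by_contra h1
    push Not at h1
    exact hb₀ ((ray_ext c hc).mono h1.le)
  set c := sInf S with hc
  have hExt : Ext f c := by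
    refine ext_limit hfd fun c' hc' => ?_
    obtain ⟨e, he, hec⟩ := exists_lt_of_csInf_lt hSn hc'
    exact Ext.mono (ray_ext e he) hec.le
  obtain ⟨F, hF, d, hd⟩ := hExt
  have htop : ∀ z : ℂ, c < z.re → meromorphicOrderAt F z ≠ ⊤ := by
    set r : ℝ := max c (max c₀ d) + 1 with hr
    have hr1 : c < r := by have := le_max_left c (max c₀ d); linarith
    have hr3 : d < r := by
      have := (le_max_right c₀ d).trans (le_max_right c (max c₀ d)); linarith
    have h1 : meromorphicOrderAt F (r : ℂ) ≠ ⊤ := by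
      intro htop
      rw [meromorphicOrderAt_eq_top_iff] at htop
      have h2 := near_of_far hd (z := (r : ℂ)) (by simpa using hr3)
      obtain ⟨z, hz1, hz2⟩ := (htop.and h2).exists
      rw [hz1] at hz2
      exact Complex.exp_ne_zero _ hz2.symm
    intro z hz
    exact (hF.exists_meromorphicOrderAt_ne_top_iff_forall (isConnected_hp c)).1
      ⟨⟨(r : ℂ), by simpa using hr1⟩, h1⟩ ⟨z, hz⟩
  -- the quotient
  set Q : ℝ → ℂ → ℂ := fun t s => F s / F (s + t * I) with hQ
  have hQm : ∀ t, MeromorphicOn (Q t) {s | c < s.re} := by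
    intro t s hs
    refine (hF s hs).div (mero_shift (hF _ ?_))
    change c < (s + t * I).re
    have : c < s.re := hs
    simpa using this
  have hQF : ∀ t : ℝ, ∀ z : ℂ, c < z.re → F =ᶠ[𝓝[≠] z] fun s => Q t s * F (s + t * I) := by
    intro t z hz
    have hz' : c < (z + t * I).re := by simpa using hz
    have h3 := (meromorphicOrderAt_ne_top_iff_eventually_ne_zero (hF _ hz')).1 (htop _ hz')
    have h4 := (tendsto_shift z (t * I)).eventually h3
    filter_upwards [h4] with s hs
    simp only [hQ]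
    rw [div_mul_cancel₀ _ hs]
  have hfarQ : ∀ t : ℝ, ∃ e : ℝ, ∀ s : ℂ, e < s.re → hm t s = Q t s := by
    intro t
    obtain ⟨b, hb⟩ := hm2 t
    refine ⟨max b (max c₀ d), fun s hs => ?_⟩
    have hs1 : b < s.re := lt_of_le_of_lt (le_max_left _ _) hs
    have hs2 : c₀ < s.re := lt_of_le_of_lt ((le_max_left _ _).trans (le_max_right _ _)) hs
    have hs3 : d < s.re := lt_of_le_of_lt ((le_max_right _ _).trans (le_max_right _ _)) hs
    simp only [hQ]
    have hfne : f (s + t * I) ≠ 0 := Complex.exp_ne_zero _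
    rw [hb s hs1, hd s hs3, hd (s + t * I) (by simpa using hs3), eq_div_iff hfne]
    exact hfac t s hs2
  have hline : ∀ t : ℝ, ∀ z : ℂ, z.im = 0 → c < z.re → hm t =ᶠ[𝓝[≠] z] Q t := by
    intro t z hz1 hz2
    obtain ⟨e, he⟩ := hfarQ t
    have hpre : IsPreconnected {s : ℂ | s.im = 0 ∧ c < s.re} := by
      refine Convex.isPreconnected ?_
      have h1 : Convex ℝ {s : ℂ | s.im = 0} := by
        intro p hp q hq α β _ _ _
        have hp' : p.im = 0 := hp
        have hq' : q.im = 0 := hq
        change (α • p + β • q).im = 0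
        simp [hp', hq']
      exact h1.inter (convex_halfSpace_re_gt c)
    refine eq_near_of_near hpre (fun s hs => hm1 t s hs.1) (fun s hs => hQm t s hs.2)
      (u₀ := ((max c e + 1 : ℝ) : ℂ)) ⟨by simp, ?_⟩ (near_of_far he ?_) ⟨hz1, hz2⟩
    · rw [Complex.ofReal_re]
      have := le_max_left c e
      linarith
    · rw [Complex.ofReal_re]
      have := le_max_right c e
      linarith
  have hrad : ∀ t : ℝ, ∃ r : ℝ, 0 < r ∧ ∀ z ∈ ball (c : ℂ) (2 * r), MeromorphicAt (hm t) z := by
    intro t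
    obtain ⟨ε, hε, hb⟩ := Metric.isOpen_iff.1 (isOpen_mero (hm t)) (c : ℂ) (hm1 t _ (by
      change ((c : ℂ)).im = 0
      exact Complex.ofReal_im c))
    exact ⟨ε / 2, by positivity, fun z hz => hb (by rwa [mul_div_cancel₀ _ (two_ne_zero)] at hz)⟩
  choose r hr0 hr using hrad
  have hball : ∀ t : ℝ, ∀ z ∈ ball (c : ℂ) (2 * r t), c < z.re → hm t =ᶠ[𝓝[≠] z] Q t := by
    intro t z hz1 hz2
    have hr0' := hr0 t
    have hconv : Convex ℝ (ball (c : ℂ) (2 * r t) ∩ {s : ℂ | c < s.re}) :=
      (convex_ball _ _).inter (convex_halfSpace_re_gt c)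
    have hu : c < (((c + r t : ℝ) : ℂ)).re := by rw [Complex.ofReal_re]; linarith
    refine eq_near_of_near hconv.isPreconnected (fun s hs => hr t s hs.1) (fun s hs => hQm t s hs.2)
      (u₀ := ((c + r t : ℝ) : ℂ)) ⟨?_, hu⟩ (hline t _ (Complex.ofReal_im _) hu) ⟨hz1, hz2⟩
    rw [mem_ball, dist_eq_norm]
    have : ((c + r t : ℝ) : ℂ) - c = ((r t : ℝ) : ℂ) := by push_cast; ring
    rw [this, Complex.norm_real, Real.norm_eq_abs, abs_of_pos hr0']
    linarith
  set hh : ℝ → ℂ → ℂ := fun t s => if s ∈ ball (c : ℂ) (r t) then hm t s else Q t s with hhh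
  have hhQ : ∀ t : ℝ, ∀ z : ℂ, c < z.re → hh t =ᶠ[𝓝[≠] z] Q t := by
    intro t z hz
    by_cases hzb : z ∈ ball (c : ℂ) (2 * r t)
    · filter_upwards [hball t z hzb hz] with s hs
      simp only [hhh]
      split_ifs
      · exact hs
      · rfl
    · have h1 : ∀ᶠ s in 𝓝[≠] z, s ∉ ball (c : ℂ) (r t) := by
        refine Filter.Eventually.filter_mono nhdsWithin_le_nhds ?_
        have h2 : IsOpen (closedBall (c : ℂ) (r t))ᶜ := isClosed_closedBall.isOpen_compl
        have h3 : z ∈ (closedBall (c : ℂ) (r t))ᶜ := by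
          intro h4
          rw [mem_closedBall] at h4
          rw [mem_ball, not_lt] at hzb
          have := hr0 t
          linarith
        filter_upwards [h2.mem_nhds h3] with s hs h5
        exact hs (ball_subset_closedBall h5)
      filter_upwards [h1] with s hs
      simp only [hhh]
      rw [if_neg hs]
  have hh1 : ∀ t, MeromorphicOn (hh t) {s | c < s.re} := fun t s hs => (hQm t s hs).congr (hhQ t s hs).symm
  have hh0 : ∀ t, MeromorphicAt (hh t) (c : ℂ) := by
    intro t
    refine (hr t (c : ℂ) (mem_ball_self (by have := hr0 t; linarith))).congr ?_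
    refine Filter.Eventually.filter_mono nhdsWithin_le_nhds ?_
    filter_upwards [isOpen_ball.mem_nhds (mem_ball_self (hr0 t) : (c : ℂ) ∈ ball (c : ℂ) (r t))] with s hs
    simp only [hhh]
    rw [if_pos hs]
  have hrel : ∀ t : ℝ, ∀ z : ℂ, c < z.re → F =ᶠ[𝓝[≠] z] fun s => hh t s * F (s + t * I) := by
    intro t z hz
    filter_upwards [hQF t z hz, hhQ t z hz] with s hs1 hs2
    rw [hs2]
    exact hs1
  obtain ⟨q₁, ρ, E, hρ, hq1, hq2, hEm, hEF⟩ := cross' hF htop hh1 hh0 hrel
  have hEFall : ∀ z ∈ ball q₁ ρ, c < z.re → E =ᶠ[𝓝[≠] z] F := by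
    intro z hz hzc
    have hconv : Convex ℝ (ball q₁ ρ ∩ {s : ℂ | c < s.re}) := (convex_ball q₁ ρ).inter (convex_halfSpace_re_gt c)
    exact eq_near_of_near hconv.isPreconnected (hEm.mono_set inter_subset_left)
      (hF.mono_set inter_subset_right) ⟨mem_ball_self hρ, hq1⟩ hEF ⟨hz, hzc⟩
  set t₂ : ℝ := q₁.im with ht₂
  set r₀ : ℝ := min (2 * r t₂) (ρ - (q₁.re - c)) with hr₀
  have hr₀0 : 0 < r₀ := lt_min (by have := hr0 t₂; linarith) (by linarith)
  have hin : ∀ z ∈ ball (c : ℂ) r₀, z + t₂ * I ∈ ball q₁ ρ := by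
    intro z hz
    rw [mem_ball, dist_eq_norm] at hz ⊢
    have e1 : z + t₂ * I - q₁ = (z - c) + ((c - q₁.re : ℝ) : ℂ) := by
      apply Complex.ext
      · simp
      · simp [ht₂]
    rw [e1]
    refine lt_of_le_of_lt (norm_add_le _ _) ?_
    rw [Complex.norm_real, Real.norm_eq_abs, abs_of_neg (by linarith)]
    have := lt_of_lt_of_le hz (min_le_right _ _)
    linarith
  set E₀ : ℂ → ℂ := fun s => hm t₂ s * E (s + t₂ * I) with hE₀
  have hE₀m : MeromorphicOn E₀ (ball (c : ℂ) r₀) := by
    intro z hz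
    exact (hr t₂ z (ball_subset_ball (min_le_left _ _) hz)).mul (mero_shift (hEm _ (hin z hz)))
  have hE₀F : ∀ z ∈ ball (c : ℂ) r₀, c < z.re → E₀ =ᶠ[𝓝[≠] z] F := by
    intro z hz hzc
    have h1 := shift_near (hEFall (z + t₂ * I) (hin z hz) (by simpa using hzc))
    filter_upwards [h1, hball t₂ z (ball_subset_ball (min_le_left _ _) hz) hzc, hQF t₂ z hzc] with s hs1 hs2 hs3
    simp only [hE₀]
    rw [hs1, hs2, ← hs3]
  -- the continuation along the real axis moves to the left
  have hnew : c - r₀ / 4 ∈ S := by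
    refine ⟨fun s => if s ∈ ball (c : ℂ) (r₀ / 2) then E₀ s else F s, ?_, max d (c + r₀), fun s hs => ?_⟩
    · rintro z ⟨hz1, hz2⟩
      by_cases hzb : z ∈ ball (c : ℂ) (r₀ / 2)
      · refine (hE₀m z (ball_subset_ball (by linarith) hzb)).congr ?_
        refine Filter.Eventually.filter_mono nhdsWithin_le_nhds ?_
        filter_upwards [isOpen_ball.mem_nhds hzb] with s hs
        rw [if_pos hs]
      · have hzr : z = ((z.re : ℝ) : ℂ) := by apply Complex.ext <;> simp [hz1]
        have hzc : c < z.re := by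
          by_contra h1
          push Not at h1
          apply hzb
          rw [mem_ball, dist_eq_norm, hzr, ← Complex.ofReal_sub, Complex.norm_real, Real.norm_eq_abs,
            abs_of_nonpos (by linarith)]
          linarith
        refine (hF z hzc).congr ?_
        by_cases hzb2 : z ∈ ball (c : ℂ) r₀
        · filter_upwards [hE₀F z hzb2 hzc] with s hs
          split_ifs
          · exact hs.symm
          · rfl
        · have h1 : ∀ᶠ s in 𝓝[≠] z, s ∉ ball (c : ℂ) (r₀ / 2) := by
            refine Filter.Eventually.filter_mono nhdsWithin_le_nhds ?_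
            have h2 : IsOpen (closedBall (c : ℂ) (r₀ / 2))ᶜ := isClosed_closedBall.isOpen_compl
            have h3 : z ∈ (closedBall (c : ℂ) (r₀ / 2))ᶜ := by
              intro h4
              rw [mem_closedBall] at h4
              rw [mem_ball, not_lt] at hzb2
              linarith
            filter_upwards [h2.mem_nhds h3] with s hs h5
            exact hs (ball_subset_closedBall h5)
          filter_upwards [h1] with s hs
          rw [if_neg hs]
    · have hs1 : d < s.re := lt_of_le_of_lt (le_max_left _ _) hs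
      have hs2 : c + r₀ < s.re := lt_of_le_of_lt (le_max_right _ _) hs
      have h1 : s ∉ ball (c : ℂ) (r₀ / 2) := by
        intro h2
        rw [mem_ball, dist_eq_norm] at h2
        have h3 := Complex.re_le_norm (s - c)
        rw [Complex.sub_re, Complex.ofReal_re] at h3
        linarith
      change (if s ∈ ball (c : ℂ) (r₀ / 2) then E₀ s else F s) = f s
      rw [if_neg h1]
      exact hd s hs1
  have h9 := csInf_le hSb hnew
  rw [← hc] at h9
  linarith

/-- the same for any horizontal line -/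
theorem good_of_line {x : Fam} (hx : x ∈ Tm) {y : ℝ} (h : ∀ t : ℝ, x - x * tw (t * I) ∈ GU (hline y)) :
    x ∈ Good := by
  have h1 : x * tw (y * I) ∈ Good := by
    refine good_of_line0 (Tm.mul_mem hx (tw_tame _)) fun t => ?_
    have h2 := GU_tw (V := hline 0) (h t) (y * I) (by
      intro s hs
      change s.im = 0 at hs
      change (s + y * I).im = y
      simp [hs])
    have h3 : (x - x * tw (t * I)) * tw (y * I) = x * tw (y * I) - x * tw (y * I) * tw (t * I) := by ring
    rwa [h3] at h2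
  have h2 := good_tw h1 (-(y * I))
  rwa [mul_assoc, ← tw_add, add_neg_cancel, tw_zero, mul_one] at h2

end Pool.Agent.H70.LS
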