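import Pool.Agent.H70.LS.Pow

/-!
# The criteria
-/

set_option autoImplicit false

namespace Pool.Agent.H70.LS

open Pool.Agent.K7.H58 Pool.Agent.K7.H58.EP Pool.Agent.K7.H58.VR

variable {n m : ℕ} {A : UnitarySystem}

/-- the central character of the representation is trivial -/
def TrivialCentral (b : GSpData n) : Prop := ∀ p, (b p).1 ^ 2 * ∏ i, (b p).2 i = 1

/-- the Langlands L-functions of products of general linear groups and a `GSp_{2m}`, in total degree at most `J` -/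
def ProductsLE (A : UnitarySystem) (J : ℕ) : Prop :=
  ∀ (k : ℕ) (n : Fin k → ℕ) (m : ℕ) (α : ∀ j : Fin k, GLData (n j)) (b : GSpData m),
    (∀ j, α j ∈ A.gl (n j)) → b ∈ A.gsp m → ∀ (τ : ∀ j : Fin k, GLRep (n j)) (ρ : GSpinRep m)
      (d : Fin k → ℕ) (e : ℕ), (∀ j, PolyDeg (d j) (τ j)) → EvenDeg e ρ → ∑ j, d j + e ≤ J →
      ∀ S : Finset Nat.Primes, Continues (LProd S α τ b ρ)

theorem continuesOn_of {U : Set ℂ} {f : ℂ → ℂ} (h : Continues f) : ContinuesOn U f := by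
  obtain ⟨F, hF, c, hc⟩ := h
  exact ⟨F, hF.mono_set (Set.subset_univ _), c, hc⟩

/-! ### The spin representation on lines -/

theorem spF_ind_triv (b : GSpData m) (z : ℂ) :
    spF (ind (fun _ _ => 1 : GLData 1) b z) = spF b + spF b * tw z := by
  rw [spF_ind, Finset.sum_range_succ, Finset.sum_range_one]
  have h0 : ee (fun i : Fin 1 => br (fun p => (fun _ _ => 1 : GLData 1) p i)) 0 = 1 := by
    unfold ee
    rw [Finset.powersetCard_zero, Finset.sum_singleton, Finset.prod_empty]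
  have h1 : ee (fun i : Fin 1 => br (fun p => (fun _ _ => 1 : GLData 1) p i)) 1 = 1 := by
    unfold ee
    rw [Finset.powersetCard_one, Finset.sum_map]
    simp [br_one]
  rw [h0, h1]
  simp [tw_zero]

theorem spin_line {𝒩 : Set ℕ} (h𝒩 : 𝒩.Infinite) (h : ∀ n ∈ 𝒩, 1 ≤ n → ∃ y : ℝ, ∀ b ∈ A.gsp n,
      ∃ S : Finset Nat.Primes, ContinuesOn (hline y) (LGSp S b (spin n))) :
    ∀ n : ℕ, 1 ≤ n → ∀ b : GSpData n, Hull A.toUnitaryClass n b → ∀ (ρ : GSpinRep n) (S : Finset Nat.Primes),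
      Continues (LGSp S b ρ) := by
  set 𝒩' : Set ℕ := {m | 1 + m ∈ 𝒩} with h𝒩'
  have hinf : 𝒩'.Infinite := by
    rw [Set.infinite_iff_exists_gt] at h𝒩 ⊢
    intro a
    obtain ⟨N, hN, haN⟩ := h𝒩 (a + 1)
    refine ⟨N - 1, ?_, by omega⟩
    change 1 + (N - 1) ∈ 𝒩
    have : 1 + (N - 1) = N := by omega
    rwa [this]
  refine spin_suffices hinf fun m hm h1 b hb => ⟨∅, ?_⟩
  rw [continues_XS' hb, XS_spin]
  obtain ⟨y, hy⟩ := h (1 + m) hm (by omega)
  have hX : ∀ t : ℝ, spF b + spF b * tw (t * Complex.I) ∈ GU (hline y) := by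
    intro t
    have h2 := VR.ind_mem A.trivial hb t
    obtain ⟨S, hS⟩ := hy _ h2
    rw [continuesOn_XS h2, XS_spin, spF_ind_triv] at hS
    exact hS
  refine good_of_line (VR.spF_tame hb) (y := y) fun t => ?_
  have h2 := (GU (hline y)).sub_mem (hX 0) (hX t)
  have h3 : spF b + spF b * tw (((0 : ℝ) : ℂ) * Complex.I) - (spF b + spF b * tw (t * Complex.I)) =
      spF b - spF b * tw (t * Complex.I) := by
    rw [Complex.ofReal_zero, zero_mul, tw_zero]
    ring
  rwa [h3] at h2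

/-! ### Trivial central character -/

/-- the value of the central character -/
noncomputable def cc (b : GSpData n) (p : Nat.Primes) : ℂˣ := (b p).1 ^ 2 * ∏ i, (b p).2 i

theorem cc_ind (α : GLData n) (b : GSpData m) (z : ℂ) (p : Nat.Primes) :
    cc (ind α b z) p = cc b p * ∏ i, (α p i * unr p z) := by
  unfold cc ind
  rw [Fin.prod_univ_add]
  simp only [Fin.append_left, Fin.append_right]
  ac_rfl

theorem unr_add (p : Nat.Primes) (w z : ℂ) : unr p w * unr p z = unr p (w + z) := (yy_add p w z).symm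

/-- adding `d` trivial characters -/
theorem add_triv {b : GSpData m} (hb : b ∈ A.gsp m) (t : ℝ) (d : ℕ) :
    ∃ b' ∈ A.gsp (d + m), spF b' = spF b * (1 + tw (t * Complex.I)) ^ d ∧
      ∀ p, cc b' p = cc b p * unr p (d * (t * Complex.I)) := by
  induction d with
  | zero =>
    have h0 : 0 + m = m := zero_add m
    rw [h0]
    refine ⟨b, hb, by rw [pow_zero, mul_one], fun p => ?_⟩
    have : unr p (((0 : ℕ) : ℂ) * (t * Complex.I)) = 1 := by
      rw [Nat.cast_zero, zero_mul]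
      exact yy_zero p
    rw [this, mul_one]
  | succ d ih =>
    obtain ⟨b', hb', h1, h2⟩ := ih
    have h0 : d + 1 + m = 1 + (d + m) := by omega
    rw [h0]
    refine ⟨_, VR.ind_mem A.trivial hb' t, ?_, fun p => ?_⟩
    · rw [spF_ind_triv, h1]
      ring
    · rw [cc_ind, h2, Fin.prod_univ_one, one_mul, mul_assoc, unr_add]
      congr 2
      push_cast
      ring

theorem spin_central {𝒩 : Set ℕ} (h𝒩 : 𝒩.Infinite) (h : ∀ n ∈ 𝒩, 1 ≤ n → ∃ u v : ℝ, u < v ∧ ∀ b ∈ A.gsp n,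
      TrivialCentral b → ∃ S : Finset Nat.Primes, ContinuesOn (strip u v) (LGSp S b (spin n))) :
    ∀ n : ℕ, 1 ≤ n → ∀ b : GSpData n, Hull A.toUnitaryClass n b → ∀ (ρ : GSpinRep n) (S : Finset Nat.Primes),
      Continues (LGSp S b ρ) := by
  classical
  refine spin_suffices (𝒩 := Set.univ) Set.infinite_univ fun m _ _ b hb => ⟨∅, ?_⟩
  rw [continues_XS' hb, XS_spin]
  obtain ⟨N, hN, hmN⟩ := h𝒩.exists_gt (m + 1)
  obtain ⟨u, v, huv, huv'⟩ := h N hN (by omega)
  obtain ⟨d, rfl⟩ : ∃ d, N = d + (1 + m) := ⟨N - (1 + m), by omega⟩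
  have hd1 : 1 ≤ d := by omega
  -- the inverse of the central character
  set χ : Nat.Primes → ℂˣ := fun p => ((b p).1 ^ 2 * ∏ i, (b p).2 i) ^ (-1 : ℤ) with hχ
  have hχm : (fun p (_ : Fin 1) => χ p) ∈ A.gl 1 := A.similitude m b hb (-1)
  have hχt : br χ ∈ Tm := by
    have h1 := (VR.growth_gl hχm 0).1.tame
    exact h1
  have hspχ : ∀ z : ℂ, spF (ind (fun p (_ : Fin 1) => χ p) b z) = spF b + spF b * (br χ * tw z) := by
    intro z
    rw [spF_ind, Finset.sum_range_succ, Finset.sum_range_one]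
    have h0 : ee (fun i : Fin 1 => br (fun p => (fun p (_ : Fin 1) => χ p) p i)) 0 = 1 := by
      unfold ee
      rw [Finset.powersetCard_zero, Finset.sum_singleton, Finset.prod_empty]
    have h1 : ee (fun i : Fin 1 => br (fun p => (fun p (_ : Fin 1) => χ p) p i)) 1 = br χ := by
      unfold ee
      rw [Finset.powersetCard_one, Finset.sum_map]
      simp
    rw [h0, h1]
    simp only [Nat.cast_zero, zero_mul, tw_zero, mul_one, Nat.cast_one, one_mul]
    ring
  -- the family for the real number `t`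
  have hX : ∀ t : ℝ, (spF b + spF b * (br χ * tw (((-(d * t) : ℝ) : ℂ) * Complex.I))) *
      (1 + tw (t * Complex.I)) ^ d ∈ GU (strip u v) := by
    intro t
    have h1 : ind (fun p (_ : Fin 1) => χ p) b (((-(d * t) : ℝ) : ℂ) * Complex.I) ∈ A.gsp (1 + m) :=
      VR.ind_mem hχm hb _
    obtain ⟨b', hb', h2, h3⟩ := add_triv h1 t d
    have htriv : TrivialCentral b' := by
      intro p
      change cc b' p = 1
      rw [h3, cc_ind, Fin.prod_univ_one, mul_assoc, mul_assoc, unr_add]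
      have e1 : (((-(d * t) : ℝ) : ℂ) * Complex.I) + d * (t * Complex.I) = 0 := by push_cast; ring
      have e2 : unr p 0 = 1 := yy_zero p
      rw [e1, e2, mul_one, hχ]
      change cc b p * (cc b p) ^ (-1 : ℤ) = 1
      rw [zpow_neg_one, mul_inv_cancel]
    obtain ⟨S, hS⟩ := huv' b' hb' htriv
    rw [continuesOn_XS hb', XS_spin, h2, hspχ] at hS
    exact hS
  -- expansion
  have hexp : ∀ t : ℝ, (spF b + spF b * (br χ * tw (((-(d * t) : ℝ) : ℂ) * Complex.I))) *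
      (1 + tw (t * Complex.I)) ^ d = ∑ i ∈ Finset.range (d + 1) ×ˢ (Finset.univ : Finset Bool),
        ((d.choose i.1 : ℕ) : Fam) * (if i.2 then spF b else spF b * br χ) *
          tw (((i.1 : ℤ) - (if i.2 then 0 else (d : ℤ)) : ℤ) * (t * Complex.I)) := by
    intro t
    rw [add_comm 1 (tw _), add_pow, Finset.mul_sum, Finset.sum_product]
    refine Finset.sum_congr rfl fun k _ => ?_
    rw [Fintype.sum_bool, one_pow, mul_one, tw_pow]
    simp only [if_true, Bool.false_eq_true, if_false]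
    have e1 : tw (((k : ℤ) - (d : ℤ) : ℤ) * (t * Complex.I)) = tw (k * (t * Complex.I)) *
        tw (((-(d * t) : ℝ) : ℂ) * Complex.I) := by
      rw [← tw_add]
      congr 1
      push_cast
      ring
    have e2 : tw (((k : ℤ) - 0 : ℤ) * (t * Complex.I)) = tw (k * (t * Complex.I)) := by
      rw [sub_zero, Int.cast_natCast]
    rw [e1, e2]
    ring
  have hiso := (strip_isolate' (Finset.range (d + 1) ×ˢ (Finset.univ : Finset Bool))
    (fun i => (i.1 : ℤ) - (if i.2 then 0 else (d : ℤ)))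
    (fun i => ((d.choose i.1 : ℕ) : Fam) * (if i.2 then spF b else spF b * br χ)) (fun i _ => by
      refine Tm.mul_mem (natCast_mem Tm _) ?_
      split_ifs
      · exact VR.spF_tame hb
      · exact Tm.mul_mem (VR.spF_tame hb) hχt) huv (fun t => by
        rw [← hexp]
        exact hX t)).1 (d : ℤ) (by omega)
  have hfil : (Finset.range (d + 1) ×ˢ (Finset.univ : Finset Bool)).filter
      (fun i => (i.1 : ℤ) - (if i.2 then 0 else (d : ℤ)) = (d : ℤ)) = {(d, true)} := by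
    ext ⟨k, c⟩
    rw [Finset.mem_filter, Finset.mem_product, Finset.mem_range, Finset.mem_singleton, Prod.mk.injEq]
    cases c
    · simp only [Bool.false_eq_true, if_false, and_false, iff_false, not_and]
      intro h1
      have := h1.1
      omega
    · simp only [if_true, Finset.mem_univ, and_true]
      omega
  rw [hfil, Finset.sum_singleton] at hiso
  simpa using hiso

/-! ### The powers of the standard representation -/

theorem hs_of_strips {w : ℕ → ℤ} (hw : w 0 = 1) (hw1 : w 1 = 1) {J : ℕ} {𝒩 : Set ℕ} (h𝒩 : 𝒩.Infinite)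
    (h : ∀ n ∈ 𝒩, 1 ≤ n → ∃ u v : ℝ, u < v ∧ ∀ b ∈ A.gsp n, gg w (stdF b) J ∈ GU (strip u v)) :
    HS A w 1 J := by
  intro m
  obtain ⟨N, hN, hmN⟩ := h𝒩.exists_gt (m + J)
  obtain ⟨u, v, huv, huv'⟩ := h N hN (by omega)
  refine ⟨u, v, huv, fun b hb => ?_⟩
  rw [one_mul]
  exact rank_down hw hw1 huv huv' (by omega) b hb

theorem products_of_KM {J : ℕ} (h : KM A wE J ≤ Good) : ProductsLE A J := by
  intro k n m α b hα hb τ ρ d e hτ hρ hJ S
  rw [continues_LProd' hα τ hb ρ S]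
  exact h (KM_mono hJ (KM_mul (KM_prod fun j => XG_KM (hα j) (hτ j)) (XS_KM hb hρ)))

theorem hull_good' {J : ℕ} (hQ : ∀ M : ℕ, 1 ≤ M → ∀ b ∈ A.gsp M, ∀ ρ : GSpinRep M, EvenDeg J ρ → XS b ρ ∈ Good)
    {m : ℕ} {b₀ : GSpData m} (h : Hull A.toUnitaryClass m b₀) : ∀ (M : ℕ) (b : GSpData M),
      Out A.toUnitaryClass b₀ M b → 1 ≤ M → ∀ ρ : GSpinRep M, EvenDeg J ρ → XS b ρ ∈ Good := by
  induction h with
  | base hb => exact fun M b hout hM ρ hρ => hQ M hM b (out_mem hb hout) ρ hρ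
  | twist w _ ih =>
    intro M b hout hM ρ hρ
    obtain ⟨b'', rfl, hout'⟩ := out_twist hout
    rw [XS_sim]
    refine Good.sum_mem fun e _ => good_tw (ih M b'' hout' hM _ ?_) _
    intro l hl
    refine hρ l ?_
    unfold partRep at hl
    rw [Finsupp.support_filter] at hl
    exact (Finset.mem_filter.1 hl).1
  | induced w hα hb ih =>
    intro M b hout hM ρ hρ
    obtain ⟨δ, b'', rfl, h2⟩ := out_ind hα hout
    have hb'' : PBD b'' := by
      have h3 := out_growth (hull_growth hb) (h2 0)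
      have h4 : scl δ (((0 : ℝ) : ℂ) * Complex.I) b'' = b'' := by
        rw [Complex.ofReal_zero, zero_mul, scl_zero]
      rwa [h4] at h3
    refine (scl_vertical (δ := δ) (a := 0) hb'' ρ.mult MeasurableSet.univ (by simp) (fun t _ => ?_)).1 w
    have h5 : ((0 : ℝ) : ℂ) + t * Complex.I = t * Complex.I := by simp
    rw [h5]
    exact ih M _ (h2 t) hM ρ hρ

theorem wE_zero : wE 0 = 1 := rfl
theorem wE_one : wE 1 = 1 := rfl
theorem wH_zero : wH 0 = 1 := rfl
theorem wH_one : wH 1 = 1 := rfl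

theorem ext_imp {𝒩 : Set ℕ} (h𝒩 : 𝒩.Infinite) {J : ℕ} (hJ : 1 ≤ J)
    (h : ∀ n ∈ 𝒩, 1 ≤ n → ∃ u v : ℝ, u < v ∧ ∀ b ∈ A.gsp n,
        ∃ S : Finset Nat.Primes, ContinuesOn (strip u v) (LGSp S b (extPow n J))) : ProductsLE A J := by
  have hs : HS A wE 1 J := by
    refine hs_of_strips wE_zero wE_one h𝒩 fun n hn h1 => ?_
    obtain ⟨u, v, huv, h2⟩ := h n hn h1
    refine ⟨u, v, huv, fun b hb => ?_⟩
    obtain ⟨S, hS⟩ := h2 b hb
    rw [continuesOn_XS hb] at hS
    have h3 : XS b (extPow n J) = gg wE (stdF b) J := by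
      rw [extPow, XS_pow, wK_ext]
    rwa [h3] at hS
  exact products_of_KM (KM_good wE_zero wE_one hJ hs)

theorem sym_imp {𝒩 : Set ℕ} (h𝒩 : 𝒩.Infinite) {J : ℕ} (hJ : 1 ≤ J)
    (h : ∀ n ∈ 𝒩, 1 ≤ n → ∃ u v : ℝ, u < v ∧ ∀ b ∈ A.gsp n,
        ∃ S : Finset Nat.Primes, ContinuesOn (strip u v) (LGSp S b (symPow n J))) : ProductsLE A J := by
  have hs : HS A wH 1 J := by
    refine hs_of_strips wH_zero wH_one h𝒩 fun n hn h1 => ?_
    obtain ⟨u, v, huv, h2⟩ := h n hn h1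
    refine ⟨u, v, huv, fun b hb => ?_⟩
    obtain ⟨S, hS⟩ := h2 b hb
    rw [continuesOn_XS hb] at hS
    have h3 : XS b (symPow n J) = gg wH (stdF b) J := by
      rw [symPow, XS_pow, wK_sym]
    rwa [h3] at hS
  exact products_of_KM ((KM_E_le_H J).trans (KM_good wH_zero wH_one hJ hs))

theorem std_tfae {𝒩 : Set ℕ} (h𝒩 : 𝒩.Infinite) {J : ℕ} (hJ : 1 ≤ J) :
    List.TFAE [
      ∀ n ∈ 𝒩, 1 ≤ n → ∃ u v : ℝ, u < v ∧ ∀ b ∈ A.gsp n,
        ∃ S : Finset Nat.Primes, ContinuesOn (strip u v) (LGSp S b (extPow n J)),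
      ∀ n ∈ 𝒩, 1 ≤ n → ∃ u v : ℝ, u < v ∧ ∀ b ∈ A.gsp n,
        ∃ S : Finset Nat.Primes, ContinuesOn (strip u v) (LGSp S b (symPow n J)),
      ∀ n : ℕ, 1 ≤ n → ∀ b : GSpData n, Hull A.toUnitaryClass n b → ∀ ρ : GSpinRep n, EvenDeg J ρ →
        ∀ S : Finset Nat.Primes, Continues (LGSp S b ρ),
      ProductsLE A J] := by
  tfae_have 1 → 4 := ext_imp h𝒩 hJ
  tfae_have 2 → 4 := sym_imp h𝒩 hJ
  tfae_have 4 → 3 := by
    intro h n hn b hb ρ hρ S
    have h1 : ∀ M : ℕ, 1 ≤ M → ∀ b ∈ A.gsp M, ∀ ρ : GSpinRep M, EvenDeg J ρ → XS b ρ ∈ Good := by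
      intro M _ b hb ρ hρ
      have h1 := h 0 (fun j => j.elim0) M (fun j => j.elim0) b (fun j => j.elim0) hb (fun j => j.elim0) ρ
        (fun j => j.elim0) J (fun j => j.elim0) hρ (by simp) ∅
      rw [continues_LProd' (fun j => j.elim0) _ hb ρ ∅] at h1
      simpa using h1
    refine (continues_XW' (hull_growth hb) ρ.mult S).2 ?_
    exact hull_good' h1 hb n b Out.refl hn ρ hρ
  tfae_have 3 → 1 := by
    intro h n _ h1
    exact ⟨0, 1, zero_lt_one, fun b hb => ⟨∅, continuesOn_of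
      (h n h1 b (Hull.base hb) _ (powRep_even _ n J) ∅)⟩⟩
  tfae_have 3 → 2 := by
    intro h n _ h1
    exact ⟨0, 1, zero_lt_one, fun b hb => ⟨∅, continuesOn_of
      (h n h1 b (Hull.base hb) _ (powRep_even _ n J) ∅)⟩⟩
  tfae_finish

theorem spin_tfae {𝒩 : Set ℕ} (h𝒩 : 𝒩.Infinite) :
    List.TFAE [
      ∀ n ∈ 𝒩, 1 ≤ n → ∃ y : ℝ, ∀ b ∈ A.gsp n,
        ∃ S : Finset Nat.Primes, ContinuesOn (hline y) (LGSp S b (spin n)),
      ∀ n ∈ 𝒩, 1 ≤ n → ∃ u v : ℝ, u < v ∧ ∀ b ∈ A.gsp n, TrivialCentral b →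
        ∃ S : Finset Nat.Primes, ContinuesOn (strip u v) (LGSp S b (spin n)),
      ∀ n : ℕ, 1 ≤ n → ∀ b : GSpData n, Hull A.toUnitaryClass n b → ∀ (ρ : GSpinRep n)
        (S : Finset Nat.Primes), Continues (LGSp S b ρ)] := by
  tfae_have 1 → 3 := spin_line h𝒩
  tfae_have 2 → 3 := spin_central h𝒩
  tfae_have 3 → 1 := by
    intro h n _ h1
    exact ⟨0, fun b hb => ⟨∅, continuesOn_of (h n h1 b (Hull.base hb) _ ∅)⟩⟩
  tfae_have 3 → 2 := by
    intro h n _ h1
    exact ⟨0, 1, zero_lt_one, fun b hb _ => ⟨∅, continuesOn_of (h n h1 b (Hull.base hb) _ ∅)⟩⟩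
  tfae_finish

end Pool.Agent.H70.LS
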