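import Pool.Agent.H70.LS.Span

/-!
# Monomials in the exterior and in the symmetric powers
-/

set_option autoImplicit false

namespace Pool.Agent.H70.LS

open Pool.Agent.K7.H58 Pool.Agent.K7.H58.EP Pool.Agent.K7.H58.VR

variable {n m : ℕ} (A : UnitarySystem)

/-- the integral combinations of monomials of degree at most `d` -/
noncomputable def KM (w : ℕ → ℤ) (d : ℕ) : AddSubgroup Fam := AddSubgroup.closure {x | ∃ d' ≤ d, MG A w d' x}

variable {A}

theorem KM_mono {w : ℕ → ℤ} {d e : ℕ} (h : d ≤ e) : KM A w d ≤ KM A w e :=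
  AddSubgroup.closure_mono fun _ ⟨d', hd', hx⟩ => ⟨d', hd'.trans h, hx⟩

theorem MG.mul_mg {w : ℕ → ℤ} {d e : ℕ} {x y : Fam} (hx : MG A w d x) (hy : MG A w e y) :
    MG A w (d + e) (x * y) := by
  induction hy with
  | one => simpa using hx
  | mul hα j _ ih =>
    rw [← mul_assoc, ← add_assoc]
    exact MG.mul hα j ih

theorem KM_mul {w : ℕ → ℤ} {d e : ℕ} {x y : Fam} (hx : x ∈ KM A w d) (hy : y ∈ KM A w e) :
    x * y ∈ KM A w (d + e) := by
  induction hx using AddSubgroup.closure_induction with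
  | mem x hx =>
    obtain ⟨d', hd', hx⟩ := hx
    induction hy using AddSubgroup.closure_induction with
    | mem y hy =>
      obtain ⟨e', he', hy⟩ := hy
      exact AddSubgroup.subset_closure ⟨d' + e', add_le_add hd' he', hx.mul_mg hy⟩
    | zero => rw [mul_zero]; exact (KM A w _).zero_mem
    | add y z _ _ hy hz => rw [mul_add]; exact (KM A w _).add_mem hy hz
    | neg y _ hy => rw [mul_neg]; exact (KM A w _).neg_mem hy
  | zero => rw [zero_mul]; exact (KM A w _).zero_mem
  | add x z _ _ hx hz => rw [add_mul]; exact (KM A w _).add_mem hx hz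
  | neg x _ hx => rw [neg_mul]; exact (KM A w _).neg_mem hx

theorem KM_one {w : ℕ → ℤ} (d : ℕ) : (1 : Fam) ∈ KM A w d :=
  AddSubgroup.subset_closure ⟨0, Nat.zero_le _, MG.one⟩

theorem KM_gg {w : ℕ → ℤ} {α : GLData n} (hα : α ∈ A.gl n) (j : ℕ) : gg w (gl1 α) j ∈ KM A w j := by
  refine AddSubgroup.subset_closure ⟨j, le_rfl, ?_⟩
  have h := MG.mul (w := w) hα j (MG.one (A := A))
  rwa [zero_add, one_mul] at h

theorem KM_prod {w : ℕ → ℤ} {k : ℕ} {d : Fin k → ℕ} {x : Fin k → Fam} (h : ∀ j, x j ∈ KM A w (d j)) :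
    ∏ j, x j ∈ KM A w (∑ j, d j) := by
  classical
  have key : ∀ s : Finset (Fin k), ∏ j ∈ s, x j ∈ KM A w (∑ j ∈ s, d j) := by
    intro s
    induction s using Finset.induction_on with
    | empty => simpa using KM_one (A := A) (w := w) 0
    | insert a s ha ih =>
      rw [Finset.prod_insert ha, Finset.sum_insert ha]
      exact KM_mul (h a) ih
  exact key _

/-- the relation between the elementary and the complete symmetric functions -/
theorem fac_inv {R : Type*} [CommRing R] (x : R) : fac wE (-x) * fac wH x = 1 := by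
  have h1 : fac wE (-x) = 1 - PowerSeries.C x * PowerSeries.X := by
    ext k
    rw [coeff_fac, map_sub, PowerSeries.coeff_one, PowerSeries.coeff_C_mul, PowerSeries.coeff_X]
    unfold wE
    rcases Nat.lt_or_ge 1 k with h1 | h1
    · rw [if_neg (by omega), if_neg (by omega), if_neg (by omega)]
      simp
    · interval_cases k
      · simp
      · simp
  rw [h1, sub_mul, one_mul, mul_assoc]
  ext k
  rw [map_sub, PowerSeries.coeff_C_mul, PowerSeries.coeff_one, coeff_fac]
  cases k with
  | zero => simp [wH]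
  | succ k =>
    rw [PowerSeries.coeff_succ_X_mul, coeff_fac, if_neg (Nat.succ_ne_zero k)]
    unfold wH
    push_cast
    ring

theorem gs_inv {R κ : Type*} [CommRing R] [Fintype κ] (x : κ → R) :
    PowerSeries.rescale (-1) (gs wE x) * gs wH x = 1 := by
  rw [← gs_scale]
  unfold gs
  rw [← Finset.prod_mul_distrib]
  refine Finset.prod_eq_one fun a _ => ?_
  have : (fun a => x a * -1) a = -(x a) := by ring
  rw [this]
  exact fac_inv _

theorem KM_E_H {α : GLData n} (hα : α ∈ A.gl n) (j : ℕ) : gg wE (gl1 α) j ∈ KM A wH j := by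
  induction j using Nat.strong_induction_on with
  | _ j ih =>
    rcases Nat.eq_zero_or_pos j with hj | hj
    · subst hj
      rw [gg_zero rfl]
      exact KM_one 0
    · have h1 := congrArg (PowerSeries.coeff j) (gs_inv (gl1 α))
      rw [PowerSeries.coeff_mul, PowerSeries.coeff_one, if_neg (by omega)] at h1
      have hmem : (j, 0) ∈ Finset.HasAntidiagonal.antidiagonal j := by
        rw [Finset.HasAntidiagonal.mem_antidiagonal]
        simp
      rw [← Finset.add_sum_erase _ _ hmem] at h1
      dsimp only at h1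
      rw [PowerSeries.coeff_rescale] at h1
      have h2 : PowerSeries.coeff 0 (gs wH (gl1 α)) = 1 := gg_zero rfl _
      rw [h2, mul_one] at h1
      have h3 : ∑ p ∈ (Finset.HasAntidiagonal.antidiagonal j).erase (j, 0),
          PowerSeries.coeff p.1 (PowerSeries.rescale (-1) (gs wE (gl1 α))) *
            PowerSeries.coeff p.2 (gs wH (gl1 α)) ∈ KM A wH j := by
        refine (KM A wH j).sum_mem fun p hp => ?_
        rw [Finset.mem_erase, Finset.HasAntidiagonal.mem_antidiagonal] at hp
        obtain ⟨a, b⟩ := p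
        dsimp only at hp ⊢
        have hb : 0 < b := by
          by_contra hcon
          have hb0 : b = 0 := by omega
          subst hb0
          exact hp.1 (by rw [Prod.mk.injEq]; exact ⟨by omega, rfl⟩)
        rw [PowerSeries.coeff_rescale, mul_assoc]
        have h4 := KM_mul (ih a (by omega)) (KM_gg (A := A) (w := wH) hα b)
        rw [hp.2] at h4
        rcases neg_one_pow_eq_or Fam a with h5 | h5
        · rw [h5, one_mul]
          exact h4
        · rw [h5, neg_one_mul]
          exact (KM A wH j).neg_mem h4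
      have h4 : (-1 : Fam) ^ j * PowerSeries.coeff j (gs wE (gl1 α)) ∈ KM A wH j := by
        rw [eq_neg_of_add_eq_zero_left h1]
        exact (KM A wH j).neg_mem h3
      rcases neg_one_pow_eq_or Fam j with h5 | h5
      · rw [h5, one_mul] at h4
        exact h4
      · rw [h5, neg_one_mul] at h4
        have h6 := (KM A wH j).neg_mem h4
        rwa [neg_neg] at h6

/-- products of exterior powers are combinations of products of symmetric powers of the same degree -/
theorem KM_E_le_H (d : ℕ) : KM A wE d ≤ KM A wH d := by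
  have key : ∀ (d : ℕ) (x : Fam), MG A wE d x → x ∈ KM A wH d := by
    intro d x hx
    induction hx with
    | one => exact KM_one 0
    | mul hα j _ ih => exact KM_mul ih (KM_E_H hα j)
  unfold KM
  rw [AddSubgroup.closure_le]
  rintro x ⟨d', hd', hx⟩
  exact KM_mono hd' (key d' x hx)

/-- the monomials of the exterior powers and of the symmetric powers are good if the corresponding powers of the
standard representation continue in strips -/
theorem KM_good {w : ℕ → ℤ} (hw : w 0 = 1) (hw1 : w 1 = 1) {J : ℕ} (hJ : 1 ≤ J) (h : HS A w 1 J) :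
    KM A w J ≤ Good := by
  unfold KM
  rw [AddSubgroup.closure_le]
  rintro x ⟨d, hd, hx⟩
  exact hx.good hw hw1 hJ h hd

/-- the evaluation of a ring homomorphism on a combination of monomials -/
theorem map_KD {R : Type*} [CommRing R] (φ : R →+* Fam) {g : ℕ → R} {w : ℕ → ℤ}
    (hg : ∀ j, φ (g j) ∈ KM A w j) {d : ℕ} {x : R} (hx : x ∈ KD g d) : φ x ∈ KM A w d := by
  have key : ∀ (d : ℕ) (x : R), Mon g d x → φ x ∈ KM A w d := by
    intro d x hx
    induction hx with
    | one => rw [map_one]; exact KM_one 0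
    | mul j _ ih => rw [map_mul]; exact KM_mul ih (hg j)
  unfold KD at hx
  induction hx using AddSubgroup.closure_induction with
  | mem x hx =>
    obtain ⟨d', hd', hx⟩ := hx
    exact KM_mono hd' (key d' x hx)
  | zero => rw [map_zero]; exact (KM A w d).zero_mem
  | add x y _ _ hx hy => rw [map_add]; exact (KM A w d).add_mem hx hy
  | neg x _ hx => rw [map_neg]; exact (KM A w d).neg_mem hx

/-- all nonzero weights of `τ` have nonnegative entries with sum at most `d` -/
def PolyDeg (d : ℕ) (τ : GLRep n) : Prop := ∀ l ∈ τ.mult.support, (∀ i, 0 ≤ l i) ∧ ∑ i, l i ≤ d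

/-- all weights of `ρ` have the form `(2k; e)` with `∑ |e_i - k| ≤ d`, and `∑ |e_i - k| + 1 ≤ d` if `k ≠ 0` -/
def EvenDeg (d : ℕ) (ρ : GSpinRep n) : Prop :=
  ∀ l ∈ ρ.mult.support, ∃ k : ℤ, l.1 = 2 * k ∧ ∑ i, |l.2 i - k| + (if k = 0 then 0 else 1) ≤ d

theorem XG_KM {α : GLData n} (hα : α ∈ A.gl n) {τ : GLRep n} {d : ℕ} (hτ : PolyDeg d τ) :
    XG α τ ∈ KM A wE d := by
  rw [XG_eq]
  have hsupp : ∀ ν, (chG τ).coeff ν ≠ 0 → ν ∈ τ.mult.support := by
    intro ν hν
    rw [coeff_chG] at hν
    rw [Finsupp.mem_support_iff]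
    exact_mod_cast hν
  have h1 : chG τ ∈ KD (eG n) d := by
    refine poly_filt ?_ ?_ ?_
    · rw [mem_InvP']
      intro g μ
      rw [coeff_chG, coeff_chG, τ.perm]
    · intro ν hν i
      exact (hτ ν (hsupp ν hν)).1 i
    · intro ν hν
      have h2 := hτ ν (hsupp ν hν)
      have h3 : ∑ i, |ν i| = ∑ i, ν i := Finset.sum_congr rfl fun i _ => abs_of_nonneg (h2.1 i)
      rw [h3]
      exact h2.2
  refine map_KD (evG α) (fun j => ?_) h1
  unfold eG
  rw [map_ee, ee_eq_gg]
  simp only [evG_bas]
  exact KM_gg hα j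

theorem std_KM {b : GSpData m} (hb : b ∈ A.gsp m) (j : ℕ) : evG (fun p => (b p).2) (eS m j) ∈ KM A wE j := by
  unfold eS
  rw [map_ee]
  have h1 : ee (fun a => evG (fun p => (b p).2) (mon (sv a))) j = ee (gl1 fun p =>
      (Fin.snoc (Fin.append (b p).2 (fun i => ((b p).2 i)⁻¹)) 1 : Fin (m + m + 1) → ℂˣ)) j :=
    ee_equiv (stdEquiv m) (fun a => ev_std a) j
  rw [h1, ee_eq_gg]
  exact KM_gg (A.standard m b hb) j

theorem char_KM {χ : Nat.Primes → ℂˣ} (h : (fun p (_ : Fin 1) => χ p) ∈ A.gl 1) : br χ ∈ KM A wE 1 := by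
  have h1 := KM_gg (A := A) (w := wE) h 1
  rw [← ee_eq_gg] at h1
  have h2 : ee (gl1 fun p (_ : Fin 1) => χ p) 1 = br χ := by
    unfold ee
    rw [Finset.powersetCard_one, Finset.sum_map]
    simp [gl1]
  rwa [h2] at h1

theorem XS_KM {b : GSpData m} (hb : b ∈ A.gsp m) {ρ : GSpinRep m} {d : ℕ} (hρ : EvenDeg d ρ) :
    XS b ρ ∈ KM A wE d := by
  classical
  rw [XS_eq]
  refine (KM A wE d).sum_mem fun e he => ?_
  obtain ⟨l, hl, rfl⟩ := Finset.mem_image.1 he
  obtain ⟨k, hk, hkd⟩ := hρ l hl
  rw [hk]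
  -- the character with the shift
  have hsh := shift_mem ρ k 0
  rw [add_zero] at hsh
  set c : ℕ := if k = 0 then 0 else 1 with hc
  have hcd : c ≤ d := by
    have h1 : (0 : ℤ) ≤ ∑ i, |l.2 i - k| := Finset.sum_nonneg fun i _ => abs_nonneg _
    have h2 : ((if k = 0 then 0 else 1 : ℤ)) = (c : ℤ) := by rw [hc]; split_ifs <;> simp
    rw [h2] at hkd
    have : (c : ℤ) ≤ d := by linarith
    exact_mod_cast this
  have hf : mon (fun _ => -k) * chS ρ (2 * k) ∈ KD (eS m) (d - c) := by
    refine even_filt hsh ?_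
    intro ν hν
    rw [coeff_shift, coeff_chS] at hν
    have hν' : ((2 * k, fun i => ν i + k) : ℤ × (Fin m → ℤ)) ∈ ρ.mult.support := by
      rw [Finsupp.mem_support_iff]
      exact_mod_cast hν
    obtain ⟨k', hk', hkd'⟩ := hρ _ hν'
    have hkk : k' = k := by
      dsimp only at hk'
      omega
    subst hkk
    dsimp only at hkd'
    have h2 : ((if k' = 0 then 0 else 1 : ℤ)) = (c : ℤ) := by rw [hc]; split_ifs <;> simp
    rw [h2] at hkd'
    have h3 : ∑ i, |ν i + k' - k'| = ∑ i, |ν i| := Finset.sum_congr rfl fun i _ => by rw [add_sub_cancel_right]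
    rw [h3] at hkd'
    have h4 : ((d - c : ℕ) : ℤ) = (d : ℤ) - c := by
      push_cast [hcd]
      rfl
    rw [h4]
    linarith
  have h1 := map_KD (evG fun p => (b p).2) (std_KM hb) hf
  rw [unshift (chS ρ (2 * k)) k, map_mul, ← mul_assoc]
  have hsim : br (fun p => (b p).1 ^ (2 * k)) * evG (fun p => (b p).2) (mon (fun _ => k)) ∈ KM A wE c := by
    rw [evG_mon, br_mul]
    have h2 : (fun p => (b p).1 ^ (2 * k) * ∏ i, (b p).2 i ^ k) =
        fun p => ((b p).1 ^ 2 * ∏ i, (b p).2 i) ^ k := by
      funext p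
      rw [mul_zpow, Finset.prod_zpow, zpow_mul]
      rfl
    rw [h2]
    by_cases hk0 : k = 0
    · have h3 : (fun p : Nat.Primes => ((b p).1 ^ 2 * ∏ i, (b p).2 i) ^ k) = fun _ => (1 : ℂˣ) := by
        funext p
        rw [hk0, zpow_zero]
      rw [h3, br_one]
      exact KM_one _
    · have hc1 : c = 1 := by rw [hc, if_neg hk0]
      rw [hc1]
      exact char_KM (A.similitude m b hb k)
  have h2 := KM_mul hsim h1
  have h3 : c + (d - c) = d := by omega
  rwa [h3] at h2

end Pool.Agent.H70.LS
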