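import Pool.Agent.H70.LS.Mono

/-!
# The exterior and the symmetric powers of the standard representation
-/

set_option autoImplicit false

namespace Pool.Agent.H70.LS

open Pool.Agent.K7.H58 Pool.Agent.K7.H58.EP Pool.Agent.K7.H58.VR

variable {n m : ℕ}

/-- The multiset of the weights `(0; ∑ f_a v_a)`, `f` running through the functions with values in `K` and sum `J` on
the set of the `2n + 1` weights `v_a = e_i, -e_i, 0` of the standard representation of `SO_{2n+1}`.  For `K = {0, 1}`
these are the weights of the `J`-th exterior power, for `K = ℕ` those of the `J`-th symmetric power. -/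
noncomputable def powMult (K : Set ℕ) (n J : ℕ) : (ℤ × (Fin n → ℤ)) →₀ ℕ :=
  open Classical in
  ∑ f ∈ ((Finset.univ : Finset ((Fin n ⊕ Fin n) ⊕ Unit)).piAntidiag J).filter (fun f => ∀ a, f a ∈ K),
    Finsupp.single ((0 : ℤ), ∑ a, f a • sv a) 1

theorem powMult_inv (K : Set ℕ) (J : ℕ) (φ : (Fin n → ℤ) ≃+ (Fin n → ℤ))
    (σ : ((Fin n ⊕ Fin n) ⊕ Unit) ≃ ((Fin n ⊕ Fin n) ⊕ Unit)) (h : ∀ a, φ (sv a) = sv (σ a)) (e₀ : ℤ)
    (e : Fin n → ℤ) : powMult K n J (e₀, φ e) = powMult K n J (e₀, e) := by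
  classical
  unfold powMult
  rw [Finsupp.finsetSum_apply, Finsupp.finsetSum_apply]
  symm
  refine Finset.sum_equiv (σ.arrowCongr (Equiv.refl ℕ)) (fun f => ?_) (fun f _ => ?_)
  · rw [Finset.mem_filter, Finset.mem_filter, Finset.mem_piAntidiag, Finset.mem_piAntidiag]
    have h1 : Finset.univ.sum ((σ.arrowCongr (Equiv.refl ℕ)) f) = Finset.univ.sum f :=
      Fintype.sum_equiv σ.symm _ _ fun a => rfl
    rw [h1]
    have h2 : (∀ a, (σ.arrowCongr (Equiv.refl ℕ)) f a ∈ K) ↔ ∀ a, f a ∈ K :=
      ⟨fun h a => by simpa using h (σ a), fun h a => h (σ.symm a)⟩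
    rw [h2]
    simp
  · have h1 : ∑ a, (σ.arrowCongr (Equiv.refl ℕ)) f a • sv a = φ (∑ a, f a • sv a) := by
      rw [map_sum]
      symm
      refine Fintype.sum_equiv σ _ _ fun a => ?_
      rw [map_nsmul, h]
      simp
    rw [h1, Finsupp.single_apply, Finsupp.single_apply]
    refine if_congr ?_ rfl rfl
    rw [Prod.mk.injEq, Prod.mk.injEq, φ.injective.eq_iff]

theorem powMult_ne (K : Set ℕ) (J : ℕ) {e₀ : ℤ} (he : e₀ ≠ 0) (e : Fin n → ℤ) : powMult K n J (e₀, e) = 0 := by
  classical
  unfold powMult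
  rw [Finsupp.finsetSum_apply]
  refine Finset.sum_eq_zero fun f _ => ?_
  rw [Finsupp.single_apply, if_neg]
  intro h
  rw [Prod.mk.injEq] at h
  exact he h.1.symm

/-- The representation of `GSpin_{2n+1}` on the exterior power (`K = {0, 1}`) or the symmetric power (`K = ℕ`) of degree
`J` of the standard representation of `SO_{2n+1}`. -/
noncomputable def powRep (K : Set ℕ) (n J : ℕ) : GSpinRep n where
  mult := powMult K n J
  perm g e₀ e := by
    refine powMult_inv K J (permE g) (Equiv.sumCongr (Equiv.sumCongr g.symm g.symm) (Equiv.refl _)) ?_ e₀ e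
    rintro ((i | i) | u)
    · exact permE_bas g i
    · change permE g (-bas i) = -bas (g.symm i)
      rw [map_neg, permE_bas]
    · exact map_zero _
  flip i e₀ e := by
    by_cases h0 : e₀ = 0
    · subst h0
      have h1 := powMult_inv K J (flipE i) (Equiv.swap (Sum.inl (Sum.inl i)) (Sum.inl (Sum.inr i))) ?_ 0 e
      · rw [← h1]
        congr 2
        funext k
        rw [flipE_apply]
        by_cases h : k = i
        · subst h; simp
        · simp [h]
      · rintro ((k | k) | u)
        · by_cases h : k = i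
          · subst h
            rw [Equiv.swap_apply_left]
            change flipE k (bas k) = -bas k
            rw [flipE_bas, if_pos rfl]
          · rw [Equiv.swap_apply_of_ne_of_ne (by simpa using h) (by simp)]
            change flipE i (bas k) = bas k
            rw [flipE_bas, if_neg h]
        · by_cases h : k = i
          · subst h
            rw [Equiv.swap_apply_right]
            change flipE k (-bas k) = bas k
            rw [map_neg, flipE_bas, if_pos rfl, neg_neg]
          · rw [Equiv.swap_apply_of_ne_of_ne (by simp) (by simpa using h)]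
            change flipE i (-bas k) = -bas k
            rw [map_neg, flipE_bas, if_neg h]
        · rw [Equiv.swap_apply_of_ne_of_ne (by simp) (by simp)]
          exact map_zero _
    · rw [powMult_ne K J h0, powMult_ne K J h0]

/-- the `J`-th exterior power of the standard representation -/
noncomputable def extPow (n J : ℕ) : GSpinRep n := powRep {0, 1} n J

/-- the `J`-th symmetric power of the standard representation -/
noncomputable def symPow (n J : ℕ) : GSpinRep n := powRep Set.univ n J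

theorem sum_abs_sv (a : (Fin n ⊕ Fin n) ⊕ Unit) : ∑ i, |sv a i| ≤ 1 := by
  rcases a with (i | i) | u
  · exact (sum_abs_bas i).le
  · simp only [sv, Pi.neg_apply, abs_neg]
    exact (sum_abs_bas i).le
  · simp [sv]

theorem powRep_even (K : Set ℕ) (n J : ℕ) : EvenDeg J (powRep K n J) := by
  classical
  intro l hl
  refine ⟨0, ?_⟩
  have h1 : (powMult K n J) l ≠ 0 := Finsupp.mem_support_iff.1 hl
  unfold powMult at h1
  rw [Finsupp.finsetSum_apply] at h1
  obtain ⟨f, hf, hne⟩ := Finset.exists_ne_zero_of_sum_ne_zero h1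
  rw [Finset.mem_filter, Finset.mem_piAntidiag] at hf
  rw [Finsupp.single_apply] at hne
  have h2 : ((0 : ℤ), ∑ a, f a • sv a) = l := by
    by_contra hcon
    exact hne (if_neg hcon)
  subst h2
  refine ⟨by simp, ?_⟩
  rw [if_pos rfl, add_zero]
  have h3 : ∀ i, |(∑ a, f a • sv a) i - 0| ≤ ∑ a, (f a : ℤ) * |sv a i| := by
    intro i
    rw [sub_zero, Finset.sum_apply]
    refine (Finset.abs_sum_le_sum_abs _ _).trans (Finset.sum_le_sum fun a _ => ?_)
    rw [Pi.smul_apply, nsmul_eq_mul, abs_mul, Nat.abs_cast]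
  calc ∑ i, |(∑ a, f a • sv a) i - 0| ≤ ∑ i, ∑ a, (f a : ℤ) * |sv a i| := Finset.sum_le_sum fun i _ => h3 i
    _ = ∑ a, (f a : ℤ) * ∑ i, |sv a i| := by
      rw [Finset.sum_comm]
      exact Finset.sum_congr rfl fun a _ => (Finset.mul_sum _ _ _).symm
    _ ≤ ∑ a, (f a : ℤ) * 1 :=
      Finset.sum_le_sum fun a _ => mul_le_mul_of_nonneg_left (sum_abs_sv a) (Nat.cast_nonneg _)
    _ = ((∑ a, f a : ℕ) : ℤ) := by push_cast; simp
    _ ≤ J := by rw [hf.1.1]

open Classical in
/-- the weights of `T^k` -/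
noncomputable def wK (K : Set ℕ) : ℕ → ℤ := fun k => if k ∈ K then 1 else 0

theorem wK_ext : wK {0, 1} = wE := by
  funext k
  unfold wK wE
  by_cases h : k ≤ 1
  · have h1 : k ∈ ({0, 1} : Set ℕ) := by
      simp only [Set.mem_insert_iff, Set.mem_singleton_iff]
      omega
    rw [if_pos h, if_pos h1]
  · have h1 : k ∉ ({0, 1} : Set ℕ) := by
      simp only [Set.mem_insert_iff, Set.mem_singleton_iff]
      omega
    rw [if_neg h, if_neg h1]

theorem wK_sym : wK Set.univ = wH := by
  funext k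
  simp [wK, wH]

theorem br_prod {ι : Type*} (s : Finset ι) (β : ι → Nat.Primes → ℂˣ) :
    ∏ i ∈ s, br (β i) = br (fun p => ∏ i ∈ s, β i p) := by
  classical
  induction s using Finset.induction_on with
  | empty => simp [br_one]
  | insert a s ha ih => rw [Finset.prod_insert ha, ih, br_mul]; simp only [Finset.prod_insert ha]

/-- the family of a power of the standard representation -/
theorem XS_pow (K : Set ℕ) (J : ℕ) (b : GSpData n) : XS b (powRep K n J) = gg (wK K) (stdF b) J := by
  classical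
  have h1 : XS b (powRep K n J) = (powMult K n J).sum fun l c => c • br (fun p => (b p).1 ^ l.1 *
      ∏ i, (b p).2 i ^ l.2 i) := rfl
  rw [h1]
  unfold powMult
  rw [← Finsupp.sum_finsetSum_index (h := fun (l : ℤ × (Fin n → ℤ)) (c : ℕ) => c • br (fun p =>
    (b p).1 ^ l.1 * ∏ i, (b p).2 i ^ l.2 i)) (fun _ => zero_smul ℕ _) (fun _ _ _ => add_smul _ _ _)]
  unfold gg gs
  rw [PowerSeries.coeff_prod]
  have h2 : ∀ f : (Fin n ⊕ Fin n) ⊕ Unit → ℕ, ((Finsupp.single ((0 : ℤ), ∑ a, f a • sv a) 1).sum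
      fun l c => c • br (fun p => (b p).1 ^ l.1 * ∏ i, (b p).2 i ^ l.2 i)) = ∏ a, stdF b a ^ f a := by
    intro f
    rw [Finsupp.sum_single_index (h := fun (l : ℤ × (Fin n → ℤ)) (c : ℕ) => c • br (fun p =>
      (b p).1 ^ l.1 * ∏ i, (b p).2 i ^ l.2 i)) (zero_smul ℕ _), one_smul]
    have h3 : ∏ a, stdF b a ^ f a = evG (fun p => (b p).2) (mon (∑ a, f a • sv a)) := by
      rw [← mon_prod, map_prod]
      refine Finset.prod_congr rfl fun a _ => ?_
      unfold stdF
      rw [← map_pow]
      congr 1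
      rw [mon, mon, AddMonoidAlgebra.single_pow, one_pow]
    rw [h3, evG_mon]
    congr 1
    funext p
    rw [zpow_zero, one_mul]
  rw [Finset.sum_congr rfl fun f _ => h2 f, Finset.sum_filter]
  symm
  refine Finset.sum_equiv Finsupp.equivFunOnFinite (fun l => ?_) (fun l _ => ?_)
  · rw [Finset.mem_finsuppAntidiag, Finset.mem_piAntidiag]
    constructor
    · rintro ⟨h3, _⟩
      exact ⟨h3, by simp⟩
    · rintro ⟨h3, _⟩
      exact ⟨h3, Finset.subset_univ _⟩
  · simp only [coeff_fac]
    rw [Finset.prod_mul_distrib]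
    split_ifs with h3
    · have h4 : ∏ i, ((wK K (l i) : ℤ) : Fam) = 1 := by
        refine Finset.prod_eq_one fun i _ => ?_
        have h5 : l i ∈ K := h3 i
        unfold wK
        rw [if_pos h5, Int.cast_one]
      rw [h4, one_mul]
      rfl
    · push Not at h3
      obtain ⟨i, hi⟩ := h3
      have hi' : l i ∉ K := hi
      have h4 : ∏ i, ((wK K (l i) : ℤ) : Fam) = 0 := by
        refine Finset.prod_eq_zero (Finset.mem_univ i) ?_
        unfold wK
        rw [if_neg hi', Int.cast_zero]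
      rw [h4, zero_mul]

/-- the continuation of the Euler product to a neighbourhood of `U` is membership in `GU U` -/
theorem continuesOn_iff {U : Set ℂ} {ι : Type*} {S : Finset Nat.Primes} {T : Finset ι}
    {β : ι → Nat.Primes → ℂˣ} {c : ι → ℕ} (h : ∀ l ∈ T, PB (β l)) :
    ContinuesOn U (Lfin S T β c) ↔ XX T β c ∈ GU U := by
  have ht := XX_tame (c := c) h
  have hcut : cut S * XX T β c ∈ GU U ↔ XX T β c ∈ GU U := by
    have h1 : (∑ q ∈ S, dl q) * XX T β c ∈ GU U := by
      rw [Finset.sum_mul]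
      exact good_le_GU U (Good.sum_mem fun q _ => dl_good q ht)
    have h2 : XX T β c = cut S * XX T β c + (∑ q ∈ S, dl q) * XX T β c := by rw [← add_mul, cut_add, one_mul]
    constructor
    · intro h
      rw [h2]
      exact (GU U).add_mem h h1
    · intro h
      have h3 : cut S * XX T β c = XX T β c - (∑ q ∈ S, dl q) * XX T β c := by rw [eq_sub_iff_add_eq, ← h2]
      rw [h3]
      exact (GU U).sub_mem h h1
  obtain ⟨d, hd⟩ := exp_Lam (S := S) (c := c) h
  rw [← hcut]
  constructor
  · rintro ⟨F, hF, a, ha⟩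
    refine ⟨Tm.mul_mem (cut_basic S).tame ht, F, hF, max a d, fun s hs => ?_⟩
    rw [ha s (lt_of_le_of_lt (le_max_left _ _) hs), hd s (lt_of_le_of_lt (le_max_right _ _) hs)]
  · rintro ⟨_, F, hF, a, ha⟩
    refine ⟨F, hF, max a d, fun s hs => ?_⟩
    rw [ha s (lt_of_le_of_lt (le_max_left _ _) hs), hd s (lt_of_le_of_lt (le_max_right _ _) hs)]

theorem continuesOn_XS {U : Set ℂ} {A : UnitarySystem} {b : GSpData m} (hb : b ∈ A.gsp m) (ρ : GSpinRep m)
    (S : Finset Nat.Primes) : ContinuesOn U (LGSp S b ρ) ↔ XS b ρ ∈ GU U :=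
  continuesOn_iff (S := S) (c := ρ.mult) fun l _ => VR.PB_gsp hb l

theorem continues_XS' {A : UnitarySystem} {b : GSpData m} (hb : b ∈ A.gsp m) (ρ : GSpinRep m)
    (S : Finset Nat.Primes) : Continues (LGSp S b ρ) ↔ XS b ρ ∈ Good :=
  continues_iff (S := S) (c := ρ.mult) fun l _ => VR.PB_gsp hb l

theorem continues_LProd' {A : UnitarySystem} {k : ℕ} {n : Fin k → ℕ} {α : ∀ j : Fin k, GLData (n j)}
    (hα : ∀ j, α j ∈ A.gl (n j)) (τ : ∀ j : Fin k, GLRep (n j))
    {b : GSpData m} (hb : b ∈ A.gsp m) (ρ : GSpinRep m) (S : Finset Nat.Primes) :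
    Continues (LProd S α τ b ρ) ↔ (∏ j, XG (α j) (τ j)) * XS b ρ ∈ Good := by
  rw [← XProd_eq]
  have h := continues_iff (S := S) (T := (Fintype.piFinset fun j => (τ j).mult.support) ×ˢ ρ.mult.support)
    (β := fun l p => (∏ j, ∏ i, α j p i ^ l.1 j i) * ((b p).1 ^ l.2.1 * ∏ i, (b p).2 i ^ l.2.2 i))
    (c := fun l => (∏ j, (τ j).mult (l.1 j)) * ρ.mult l.2)
    (fun l _ => (PB.prod _ fun j _ => VR.PB_gl (hα j) (l.1 j)).mul (VR.PB_gsp hb l.2))
  exact h

end Pool.Agent.H70.LS
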