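import Pool.Agent.H70.LS.Core

/-!
# From one rank to all smaller ranks
-/

set_option autoImplicit false

namespace Pool.Agent.H70.LS

open Pool.Agent.K7.H58 Pool.Agent.K7.H58.EP Pool.Agent.K7.H58.VR
open Finset.HasAntidiagonal (antidiagonal mem_antidiagonal)

variable {n m : ℕ} {A : UnitarySystem}

/-- the coefficient of `T^J` of the product with an integral series -/
noncomputable def cf (w : ℕ → ℤ) (J : ℕ) (b : GSpData m) : PowerSeries ℤ →+ Fam where
  toFun P := PowerSeries.coeff J (PowerSeries.map (Int.castRingHom Fam) P * gs w (stdF b))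
  map_zero' := by rw [map_zero, zero_mul, map_zero]
  map_add' P Q := by rw [map_add, add_mul, map_add]

theorem cf_apply (w : ℕ → ℤ) (J : ℕ) (b : GSpData m) (P : PowerSeries ℤ) :
    cf w J b P = PowerSeries.coeff J (PowerSeries.map (Int.castRingHom Fam) P * gs w (stdF b)) := rfl

theorem cf_tame {w : ℕ → ℤ} {J : ℕ} {b : GSpData m} (hb : b ∈ A.gsp m) (P : PowerSeries ℤ) :
    cf w J b P ∈ Tm := by
  rw [cf_apply, PowerSeries.coeff_mul]
  refine Tm.sum_mem fun p _ => Tm.mul_mem ?_ (gg_mem w (stdF_tame hb) _)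
  rw [PowerSeries.coeff_map]
  exact intCast_mem Tm _

/-- the series obtained from the trivial character -/
noncomputable def VV (w : ℕ → ℤ) (k : ℤ) : PowerSeries ℤ :=
  PowerSeries.mk fun c => ∑ q ∈ antidiagonal c with (q.1 : ℤ) - q.2 = k, w q.1 * w q.2

theorem sum_VV (w : ℕ → ℤ) (J : ℕ) (b : GSpData m) (P : PowerSeries ℤ) (k : ℤ) :
    ∑ i ∈ (antidiagonal J).sigma (fun p => antidiagonal p.1) with (i.2.1 : ℤ) - i.2.2 = k,
      gg w (gl1 (fun _ _ => 1 : GLData 1)) i.2.1 * gg w (gl2 (fun _ _ => 1 : GLData 1)) i.2.2 *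
        PowerSeries.coeff i.1.2 (PowerSeries.map (Int.castRingHom Fam) P * gs w (stdF b)) =
      cf w J b (VV w k * P) := by
  rw [cf_apply, map_mul (PowerSeries.map _), mul_assoc, PowerSeries.coeff_mul, Finset.sum_filter,
    Finset.sum_sigma]
  refine Finset.sum_congr rfl fun p _ => ?_
  rw [PowerSeries.coeff_map, VV, PowerSeries.coeff_mk, map_sum, Finset.sum_mul, ← Finset.sum_filter]
  refine Finset.sum_congr rfl fun q _ => ?_
  dsimp only
  rw [gg_triv, gg_triv2, map_mul (Int.castRingHom Fam)]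
  rfl

/-- adding a trivial character, in strips -/
theorem step_strip {w : ℕ → ℤ} {J : ℕ} {u v : ℝ} (huv : u < v) {P : PowerSeries ℤ} {b : GSpData m}
    (hb : b ∈ A.gsp m) (h : ∀ b' ∈ A.gsp (1 + m), cf w J b' P ∈ GU (strip u v)) :
    cf w J b (VV w 1 * P) ∈ Good ∧ cf w J b (VV w 0 * P) ∈ GU (strip u v) := by
  have h1 := strip_isolate' ((antidiagonal J).sigma (fun p => antidiagonal p.1))
    (fun i => (i.2.1 : ℤ) - i.2.2)
    (fun i => gg w (gl1 (fun _ _ => 1 : GLData 1)) i.2.1 * gg w (gl2 (fun _ _ => 1 : GLData 1)) i.2.2 *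
        PowerSeries.coeff i.1.2 (PowerSeries.map (Int.castRingHom Fam) P * gs w (stdF b))) ?_ huv ?_
  · rw [← sum_VV, ← sum_VV]
    exact ⟨h1.1 1 one_ne_zero, h1.2⟩
  · intro i _
    exact Tm.mul_mem (Tm.mul_mem (gg_mem w (gl1_tame A.trivial) _) (gg_mem w (gl2_tame A.trivial) _))
      (cf_tame hb P)
  · intro t
    have h2 := h _ (VR.ind_mem A.trivial hb t)
    rw [cf_apply, coeff_ind] at h2
    exact h2

/-- adding a trivial character -/
theorem step_good {w : ℕ → ℤ} {J : ℕ} {P : PowerSeries ℤ} {b : GSpData m}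
    (hb : b ∈ A.gsp m) (h : ∀ b' ∈ A.gsp (1 + m), cf w J b' P ∈ Good) :
    cf w J b (VV w 1 * P) ∈ Good ∧ cf w J b (VV w 0 * P) ∈ Good := by
  refine ⟨(step_strip (zero_lt_one (α := ℝ)) hb fun b' hb' => good_le_GU _ (h b' hb')).1, ?_⟩
  refine good_of_lines (cf_tame hb _) fun y => ?_
  refine GU_mono (V := strip (y - 1) (y + 1)) (fun s hs => ?_)
    (step_strip (u := y - 1) (v := y + 1) (by linarith) hb fun b' hb' => good_le_GU _ (h b' hb')).2
  change s.im = y at hs
  constructor
  · rw [hs]; linarith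
  · rw [hs]; linarith

theorem steps {w : ℕ → ℤ} {J N : ℕ} {u v : ℝ} (huv : u < v)
    (h : ∀ b ∈ A.gsp N, cf w J b 1 ∈ GU (strip u v)) (d : ℕ) : ∀ m : ℕ, m + d = N → ∀ b ∈ A.gsp m,
      (∀ k : ℕ, 1 ≤ k → k ≤ d → cf w J b (VV w 1 ^ k * VV w 0 ^ (d - k)) ∈ Good) ∧
        cf w J b (VV w 0 ^ d) ∈ GU (strip u v) := by
  induction d with
  | zero =>
    intro m hm b hb
    rw [add_zero] at hm
    subst hm
    refine ⟨fun k h1 h2 => by omega, ?_⟩
    rw [pow_zero]
    exact h b hb
  | succ d ih =>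
    intro m hm b hb
    have h1 := ih (1 + m) (by omega)
    have h2 := step_strip huv hb (P := VV w 0 ^ d) fun b' hb' => (h1 b' hb').2
    refine ⟨fun k hk1 hk2 => ?_, ?_⟩
    · rcases Nat.lt_or_ge d k with hk | hk
      · have hkd : k = d + 1 := by omega
        subst hkd
        rcases Nat.eq_zero_or_pos d with hd | hd
        · subst hd
          have h3 := h2.1
          simpa using h3
        · have h3 := (step_good hb fun b' hb' => (h1 b' hb').1 d hd le_rfl).1
          rw [Nat.sub_self, pow_zero, mul_one] at h3 ⊢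
          rw [pow_succ, mul_comm]
          exact h3
      · have h3 := (step_good hb fun b' hb' => (h1 b' hb').1 k hk1 hk).2
        have e1 : VV w 1 ^ k * VV w 0 ^ (d + 1 - k) = VV w 0 * (VV w 1 ^ k * VV w 0 ^ (d - k)) := by
          have : d + 1 - k = (d - k) + 1 := by omega
          rw [this, pow_succ]
          ring
        rw [e1]
        exact h3
    · rw [pow_succ, mul_comm]
      exact h2.2

theorem VV_zero_const {w : ℕ → ℤ} (hw : w 0 = 1) : PowerSeries.constantCoeff (VV w 0) = 1 := by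
  rw [← PowerSeries.coeff_zero_eq_constantCoeff_apply, VV, PowerSeries.coeff_mk]
  have : (antidiagonal 0 : Finset (ℕ × ℕ)) = {(0, 0)} := rfl
  rw [this, Finset.sum_filter, Finset.sum_singleton]
  simp [hw]

theorem VV_one {w : ℕ → ℤ} (hw : w 0 = 1) (hw1 : w 1 = 1) :
    ∃ U : PowerSeries ℤ, VV w 1 = PowerSeries.X * U ∧ PowerSeries.constantCoeff U = 1 := by
  have h0 : PowerSeries.constantCoeff (VV w 1) = 0 := by
    rw [← PowerSeries.coeff_zero_eq_constantCoeff_apply, VV, PowerSeries.coeff_mk]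
    have : (antidiagonal 0 : Finset (ℕ × ℕ)) = {(0, 0)} := rfl
    rw [this, Finset.sum_filter, Finset.sum_singleton]
    simp
  obtain ⟨U, hU⟩ := PowerSeries.X_dvd_iff.2 h0
  refine ⟨U, hU, ?_⟩
  have h1 : PowerSeries.coeff 1 (VV w 1) = 1 := by
    rw [VV, PowerSeries.coeff_mk]
    have : (antidiagonal 1 : Finset (ℕ × ℕ)) = {(0, 1), (1, 0)} := rfl
    rw [this, Finset.sum_filter]
    simp [hw, hw1]
  rw [hU] at h1
  have h2 : PowerSeries.coeff 1 (PowerSeries.X * U) = PowerSeries.coeff 0 U := PowerSeries.coeff_succ_X_mul 0 U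
  rw [h2] at h1
  rwa [PowerSeries.coeff_zero_eq_constantCoeff_apply] at h1

/-- **From one rank to the smaller ranks.** -/
theorem rank_down {w : ℕ → ℤ} (hw : w 0 = 1) (hw1 : w 1 = 1) {J N : ℕ} {u v : ℝ} (huv : u < v)
    (h : ∀ b ∈ A.gsp N, gg w (stdF b) J ∈ GU (strip u v)) (hmN : m + J ≤ N) :
    ∀ b ∈ A.gsp m, gg w (stdF b) J ∈ GU (strip u v) := by
  intro b hb
  have hcf : ∀ {m' : ℕ} (b' : GSpData m'), cf w J b' 1 = gg w (stdF b') J := by
    intro m' b'
    rw [cf_apply, map_one, one_mul]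
    rfl
  set d := N - m with hd
  obtain ⟨h1, h2⟩ := steps (w := w) (J := J) huv (fun b' hb' => by rw [hcf]; exact h b' hb') d m (by omega) b hb
  obtain ⟨U, hU, hU1⟩ := VV_one hw hw1
  have hV0 := VV_zero_const hw
  -- `X ^ k * Q` is good for `k ≥ 1`
  have key : ∀ e k : ℕ, 1 ≤ k → J + 1 ≤ k + e → ∀ Q : PowerSeries ℤ, cf w J b (PowerSeries.X ^ k * Q) ∈ Good := by
    intro e
    induction e with
    | zero =>
      intro k hk hke Q
      have h3 : cf w J b (PowerSeries.X ^ k * Q) = 0 := by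
        rw [cf_apply, map_mul (PowerSeries.map _), map_pow, PowerSeries.map_X, mul_assoc,
          PowerSeries.coeff_X_pow_mul']
        rw [if_neg (by omega)]
      rw [h3]
      exact Good.zero_mem
    | succ e ih =>
      intro k hk hke Q
      have ihk := ih (k + 1) (by omega) (by omega)
      rcases Nat.lt_or_ge J k with hJk | hJk
      · exact by
          have h3 : cf w J b (PowerSeries.X ^ k * Q) = 0 := by
            rw [cf_apply, map_mul (PowerSeries.map _), map_pow, PowerSeries.map_X, mul_assoc,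
          PowerSeries.coeff_X_pow_mul']
            rw [if_neg (by omega)]
          rw [h3]
          exact Good.zero_mem
      -- `X ^ k` is good
      have hXk : cf w J b (PowerSeries.X ^ k) ∈ Good := by
        have h3 := h1 k hk (by omega)
        set W : PowerSeries ℤ := U ^ k * VV w 0 ^ (d - k) with hW
        have hW1 : PowerSeries.constantCoeff (W - 1) = 0 := by
          rw [hW, map_sub, map_mul, map_pow, map_pow, hU1, hV0, map_one]
          simp
        obtain ⟨W', hW'⟩ := PowerSeries.X_dvd_iff.2 hW1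
        have e1 : VV w 1 ^ k * VV w 0 ^ (d - k) = PowerSeries.X ^ k + PowerSeries.X ^ (k + 1) * W' := by
          rw [hU, mul_pow, mul_assoc, ← hW, pow_succ, mul_assoc, ← hW']
          ring
        rw [e1, map_add] at h3
        have h4 := Good.sub_mem h3 (ihk W')
        rwa [add_sub_cancel_right] at h4
      have hQ0 : PowerSeries.constantCoeff (Q - PowerSeries.C (PowerSeries.constantCoeff Q)) = 0 := by
        rw [map_sub, PowerSeries.constantCoeff_C, sub_self]
      obtain ⟨Q', hQ'⟩ := PowerSeries.X_dvd_iff.2 hQ0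
      have e2 : PowerSeries.X ^ k * Q = (PowerSeries.constantCoeff Q) • (PowerSeries.X ^ k : PowerSeries ℤ) +
          PowerSeries.X ^ (k + 1) * Q' := by
        rw [pow_succ, mul_assoc, ← hQ', zsmul_eq_mul]
        have : ((PowerSeries.constantCoeff Q : ℤ) : PowerSeries ℤ) = PowerSeries.C (PowerSeries.constantCoeff Q) :=
          (eq_intCast (PowerSeries.C (R := ℤ)) _).symm
        rw [this]
        ring
      rw [e2, map_add, map_zsmul]
      exact Good.add_mem (Good.zsmul_mem hXk _) (ihk Q')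
  have hV01 : PowerSeries.constantCoeff (VV w 0 ^ d - 1) = 0 := by
    rw [map_sub, map_pow, hV0, map_one, one_pow, sub_self]
  obtain ⟨W', hW'⟩ := PowerSeries.X_dvd_iff.2 hV01
  have e1 : VV w 0 ^ d = 1 + PowerSeries.X ^ 1 * W' := by
    rw [pow_one, ← hW']
    ring
  rw [e1, map_add] at h2
  have h4 := (GU (strip u v)).sub_mem h2 (good_le_GU _ (key J 1 le_rfl (by omega) W'))
  rw [add_sub_cancel_right, hcf] at h4
  exact h4

end Pool.Agent.H70.LS
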