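import Pool.Agent.H70.LS.Rank

/-!
# Weyl invariants of bounded degree
-/

set_option autoImplicit false

namespace Pool.Agent.H70.LS

open Pool.Agent.K7.H58 Pool.Agent.K7.H58.EP Pool.Agent.K7.H58.VR
open AddMonoidAlgebra

/-- the monomials of degree `d` in elements `g j` of degree `j` -/
inductive Mon {R : Type*} [CommRing R] (g : ℕ → R) : ℕ → R → Prop
  | one : Mon g 0 1
  | mul {d : ℕ} {x : R} (j : ℕ) (hx : Mon g d x) : Mon g (d + j) (x * g j)

/-- the integral combinations of monomials of degree at most `d` -/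
def KD {R : Type*} [CommRing R] (g : ℕ → R) (d : ℕ) : AddSubgroup R :=
  AddSubgroup.closure {x | ∃ d' ≤ d, Mon g d' x}

variable {m : ℕ}

/-- functions supported in the ball of radius `d` -/
noncomputable def SB (m d : ℕ) : AddSubgroup (GR m) where
  carrier := {f | ∀ ν, f.coeff ν ≠ 0 → ∑ i, |ν i| ≤ d}
  add_mem' {a b} ha hb ν hν := by
    rw [coeff_add, Finsupp.add_apply] at hν
    by_cases h : a.coeff ν = 0
    · rw [h, zero_add] at hν
      exact hb ν hν
    · exact ha ν h
  neg_mem' {a} ha ν hν := by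
    rw [coeff_neg, Finsupp.neg_apply, neg_ne_zero] at hν
    exact ha ν hν
  zero_mem' ν hν := absurd rfl hν

theorem SB_mono {d e : ℕ} (h : d ≤ e) : SB m d ≤ SB m e := fun _ hf ν hν =>
  (hf ν hν).trans (by exact_mod_cast h)

theorem SB_mul {d e : ℕ} {f g : GR m} (hf : f ∈ SB m d) (hg : g ∈ SB m e) : f * g ∈ SB m (d + e) := by
  intro ν hν
  obtain ⟨κ, τ, h1, h2, rfl⟩ := supp_mul hν
  calc ∑ i, |(κ + τ) i| ≤ ∑ i, (|κ i| + |τ i|) := Finset.sum_le_sum fun i _ => abs_add_le _ _
    _ = ∑ i, |κ i| + ∑ i, |τ i| := Finset.sum_add_distrib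
    _ ≤ d + e := add_le_add (hf κ h1) (hg τ h2)
    _ = ((d + e : ℕ) : ℤ) := by push_cast; rfl

theorem SB_mon {d : ℕ} {v : Fin m → ℤ} (hv : ∑ i, |v i| ≤ d) : (mon v : GR m) ∈ SB m d := by
  intro ν hν
  rw [coeff_single_ne hν]
  exact hv

theorem SB_one : (1 : GR m) ∈ SB m 0 := by
  have h : (mon 0 : GR m) ∈ SB m 0 := SB_mon (by simp)
  exact h

theorem SB_ee {κ : Type*} [Fintype κ] {x : κ → GR m} (h : ∀ a, x a ∈ SB m 1) (j : ℕ) : ee x j ∈ SB m j := by
  classical
  unfold ee
  refine (SB m j).sum_mem fun I hI => ?_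
  have key : ∀ I : Finset κ, ∏ a ∈ I, x a ∈ SB m I.card := by
    intro I
    induction I using Finset.induction_on with
    | empty => simpa using SB_one
    | insert a s ha ih =>
      rw [Finset.prod_insert ha, Finset.card_insert_of_notMem ha, add_comm]
      exact SB_mul (h a) ih
  have h1 := key I
  rwa [(Finset.mem_powersetCard.1 hI).2] at h1

theorem sum_abs_bas (i : Fin m) : ∑ k, |(bas i : Fin m → ℤ) k| = 1 := by
  rw [Finset.sum_eq_single i]
  · simp [bas]
  · intro j _ hj
    simp [bas, Pi.single_eq_of_ne hj]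
  · intro h
    exact absurd (Finset.mem_univ i) h

theorem eS_SB (j : ℕ) : eS m j ∈ SB m j := by
  refine SB_ee (fun a => SB_mon ?_) j
  rcases a with (i | i) | u
  · exact (sum_abs_bas i).le
  · simp only [sv, Pi.neg_apply, abs_neg]
    exact (sum_abs_bas i).le
  · simp [sv]

theorem eG_SB (j : ℕ) : eG m j ∈ SB m j := SB_ee (fun i => SB_mon (sum_abs_bas i).le) j

theorem Mon.sb {g : ℕ → GR m} (hg : ∀ j, g j ∈ SB m j) {d : ℕ} {x : GR m} (h : Mon g d x) : x ∈ SB m d := by
  induction h with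
  | one => exact SB_one
  | mul j _ ih => exact SB_mul ih (hg j)

theorem Mon.mem {R : Type*} [CommRing R] {g : ℕ → R} {S : Subring R} (hg : ∀ j, g j ∈ S) {d : ℕ} {x : R}
    (h : Mon g d x) : x ∈ S := by
  induction h with
  | one => exact S.one_mem
  | mul j _ ih => exact S.mul_mem ih (hg j)

/-- monomials with a given dominant leading exponent, with their degree -/
theorem exists_LM_deg (g : ℕ → GR m) (hg : ∀ j, 1 ≤ j → j ≤ m → LM (g j) (stp m j)) :
    ∀ n : ℕ, ∀ l : Fin m → ℕ, Antitone l → ∑ i, l i = n → ∃ P, Mon g n P ∧ LM P (cst l) := by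
  classical
  intro n
  induction n using Nat.strong_induction_on with
  | _ n ih =>
    intro l hl hn
    by_cases h0 : l = 0
    · refine ⟨1, ?_, ?_⟩
      · rw [h0] at hn
        have : n = 0 := by simpa using hn.symm
        rw [this]
        exact Mon.one
      · rw [h0]
        have : cst (0 : Fin m → ℕ) = 0 := by funext i; simp [cst]
        rw [this]
        exact LM.one
    -- j = number of positive entries
    obtain ⟨j, hjm, hj⟩ : ∃ j ≤ m, ∀ k : Fin m, 0 < l k ↔ k.1 < j := by
      have hex : ∃ n, n = m ∨ ∃ h : n < m, l ⟨n, h⟩ = 0 := ⟨m, Or.inl rfl⟩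
      refine ⟨Nat.find hex, ?_, fun k => ?_⟩
      · exact Nat.find_min' hex (Or.inl rfl)
      · constructor
        · intro hk
          by_contra hcon
          push Not at hcon
          rcases Nat.find_spec hex with h1 | ⟨h1, h2⟩
          · have := k.2
            omega
          · have h3 : l k ≤ l ⟨Nat.find hex, h1⟩ := hl hcon
            omega
        · intro hk
          have h1 := Nat.find_min hex hk
          push Not at h1
          exact Nat.pos_of_ne_zero (h1.2 k.2)
    have hj1 : 1 ≤ j := by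
      by_contra hcon
      have : j = 0 := by omega
      apply h0
      funext k
      by_contra h1
      have := (hj k).1 (Nat.pos_of_ne_zero h1)
      omega
    set l' : Fin m → ℕ := fun k => if k.1 < j then l k - 1 else l k with hl'
    have hl'a : Antitone l' := by
      intro a b hab
      simp only [hl']
      have h1 := hl hab
      have h2 := hj a
      have h3 := hj b
      split_ifs with h4 h5 h5
      · omega
      · have := h3.2 h4
        have h6 : a.1 ≤ b.1 := hab
        omega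
      · omega
      · exact h1
    have hsum : ∑ i, l' i + j = n := by
      rw [← hn, ← card_filter_lt hjm, Finset.card_filter, ← Finset.sum_add_distrib]
      refine Finset.sum_congr rfl fun i _ => ?_
      simp only [hl']
      have := hj i
      split_ifs with h5
      · have := this.2 h5
        omega
      · omega
    obtain ⟨Q, hQE, hQ⟩ := ih (∑ i, l' i) (by omega) l' hl'a rfl
    refine ⟨Q * g j, ?_, ?_⟩
    · rw [← hsum]
      exact Mon.mul j hQE
    · have h5 : cst l = cst l' + stp m j := by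
        funext k
        simp only [cst, stp, Pi.add_apply, hl']
        have := hj k
        split_ifs with h6
        · have := this.2 h6
          omega
        · simp
      rw [h5]
      exact hQ.mul (hg j hj1 hjm)

theorem sum_toNat {μ : Fin m → ℤ} (h : ∀ i, 0 ≤ μ i) {d : ℕ} (hd : ∑ i, |μ i| ≤ d) : ∑ i, (μ i).toNat ≤ d := by
  have h1 : ((∑ i, (μ i).toNat : ℕ) : ℤ) = ∑ i, |μ i| := by
    push_cast
    refine Finset.sum_congr rfl fun i _ => ?_
    rw [abs_of_nonneg (h i)]
    exact Int.toNat_of_nonneg (h i)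
  have h2 : ((∑ i, (μ i).toNat : ℕ) : ℤ) ≤ (d : ℤ) := by rw [h1]; exact hd
  exact_mod_cast h2

/-- **The invariants of the Weyl group of type C of degree at most `d`.** -/
theorem even_filt {d : ℕ} {f : GR m} (hf : f ∈ InvE m 0) (hfd : f ∈ SB m d) : f ∈ KD (eS m) d := by
  have h := spanning (m := m) (InvE m 0 ⊓ SB m d) (KD (eS m) d) ?_
  · exact h ⟨hf, hfd⟩
  intro f hf μ hμ hmax
  have hf' := mem_InvE'.1 hf.1
  have h1 := antitone_lead hf'.1 hμ hmax
  have h2 := eps_lead hf'.2 hμ hmax
  have h3 : ∀ i, 0 ≤ μ i := fun i => by have := h2 i; linarith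
  refine ⟨h3, ?_⟩
  have hd : ∑ i, (μ i).toNat ≤ d := sum_toNat h3 (hf.2 μ hμ)
  obtain ⟨P, hP, hPL⟩ := exists_LM_deg (eS m) (fun j _ hj => LM_eS hj) _ (fun i => (μ i).toNat)
    (fun a b hab => Int.toNat_le_toNat (h1 hab)) rfl
  have h4 : cst (fun i => (μ i).toNat) = μ := by
    funext i
    exact Int.toNat_of_nonneg (h3 i)
  rw [h4] at hPL
  refine ⟨P, ⟨?_, SB_mono hd (hP.sb eS_SB)⟩, AddSubgroup.subset_closure ⟨_, hd, hP⟩, hPL⟩
  have hPE : P ∈ ES m := hP.mem (S := ES m) fun j => Subring.subset_closure (Set.mem_range_self j)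
  have := InvE_mul one_mem_InvE hPE
  rwa [one_mul] at this

/-- **The symmetric polynomials of degree at most `d`.** -/
theorem poly_filt {d : ℕ} {f : GR m} (hf : f ∈ InvP m) (hfN : f ∈ NN m) (hfd : f ∈ SB m d) :
    f ∈ KD (eG m) d := by
  have h := spanning (m := m) ((InvP m ⊓ NN m : Subring (GR m)).toAddSubgroup ⊓ SB m d) (KD (eG m) d) ?_
  · exact h ⟨⟨hf, hfN⟩, hfd⟩
  intro f hf μ hμ hmax
  have hf1 := mem_InvP'.1 hf.1.1
  have h1 := antitone_lead hf1 hμ hmax
  have h3 : ∀ i, 0 ≤ μ i := hf.1.2 μ hμ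
  refine ⟨h3, ?_⟩
  have hd : ∑ i, (μ i).toNat ≤ d := sum_toNat h3 (hf.2 μ hμ)
  obtain ⟨P, hP, hPL⟩ := exists_LM_deg (eG m) (fun j _ hj => LM_eG hj) _ (fun i => (μ i).toNat)
    (fun a b hab => Int.toNat_le_toNat (h1 hab)) rfl
  have h4 : cst (fun i => (μ i).toNat) = μ := by
    funext i
    exact Int.toNat_of_nonneg (h3 i)
  rw [h4] at hPL
  have hPE : P ∈ EG m := hP.mem (S := EG m) fun j => Subring.subset_closure (Set.mem_range_self j)
  exact ⟨P, ⟨⟨EG_le hPE, EG_NN hPE⟩, SB_mono hd (hP.sb eG_SB)⟩, AddSubgroup.subset_closure ⟨_, hd, hP⟩, hPL⟩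

end Pool.Agent.H70.LS
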